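import Pool.Agent.Work.MP_bec1e1_LU_h57.ULUCK

/-! # ADIAG from ULUCK: a kernel which does not depend on the window -/

set_option autoImplicit false

open Filter Topology
open scoped BigOperators

namespace Pool.Agent.LCSU

open Pool.Agent.LCSE Pool.Agent.LCSV

noncomputable section

variable {k : ℕ}

/-- almost the point mass at `x` -/
def qx (t : ℝ) (x : List (Fin k)) (_ u : List (Fin k)) : ℝ :=
  t + (1 - t) * ((k : ℝ) ^ x.length * ind (u = x))

lemma marg_qx (hk : 0 < k) (n : ℕ) (t : ℝ) (x u : List (Fin k)) :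
    marg n (qx t x) u = qx t x [] u := Ex_const hk n _

lemma kernR_qx (hk : 0 < k) (n : ℕ) (t : ℝ) (x : List (Fin k)) (R : ℕ) (v u : List (Fin k)) :
    kernR n (qx t x) R v u = margR n (qx t x) R u := by
  induction R generalizing v u with
  | zero => rfl
  | succ R ih =>
    rw [kernR, margR, ih, marg_qx hk]
    congr 1
    split_ifs <;> rfl

lemma Exk_const_kernel (l : ℕ) (g : List (Fin k) → ℝ) (K : List (Fin k) → List (Fin k) → ℝ)
    (hK : ∀ v c, K v c = g c) (vs : List (List (Fin k))) (f : List (List (Fin k)) → ℝ) :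
    Exk l K vs f = Exc k l g vs.length f := by
  induction vs generalizing f with
  | nil => rfl
  | cons v vs ih =>
    rw [Exk_cons, List.length_cons, Exc_succ]
    refine Ex_congr fun c _ => ?_
    rw [hK, ih]

lemma qx_mean (hk : 0 < k) (t : ℝ) (x : List (Fin k)) (v : List (Fin k))
    (f : List (Fin k) → ℝ) :
    (Ex k x.length fun u => qx t x v u * f u) = t * Ex k x.length f + (1 - t) * f x := by
  have hk0 : (k : ℝ) ≠ 0 := by positivity
  have h1 : (Ex k x.length fun u => qx t x v u * f u) =
      Ex k x.length fun u => t * f u + (1 - t) * (k : ℝ) ^ x.length * (ind (u = x) * f u) :=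
    Ex_congr fun u _ => by unfold qx; ring
  rw [h1, Ex_add, Ex_const_mul, Ex_const_mul, Ex_ind_eq]
  have h2 : (1 - t) * (k : ℝ) ^ x.length * (((k : ℝ)⁻¹) ^ x.length * f x) =
      (1 - t) * f x * ((k : ℝ) * (k : ℝ)⁻¹) ^ x.length := by rw [mul_pow]; ring
  rw [h2, mul_inv_cancel₀ hk0, one_pow, mul_one]

end

end Pool.Agent.LCSU

namespace Pool.Agent.LCSV

open Pool.Agent.LCSE Pool.Agent.LCSU

/-- **ADIAG** -/
theorem stmt_ADIAG (hUL : Stmt_ULUCK) (hPHI : Stmt_PHI) (hUNIF : Stmt_UNIF)
    (hSPLIT : Stmt_SPLIT) : Stmt_ADIAG := by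
  intro k hk2 hRig x
  have hk : 0 < k := by omega
  have hk0 : (0 : ℝ) < k := by exact_mod_cast hk
  have hP := hPHI k hk2
  by_contra hcon
  push Not at hcon
  set j := x.length with hj
  have hj1 : 1 ≤ j := by
    by_contra h
    have h0 : x = [] := List.length_eq_zero_iff.mp (by omega)
    have h1 : j = 0 := by omega
    rw [h1, h0] at hcon
    simp at hcon
  have hj0 : (0 : ℝ) < j := by exact_mod_cast hj1
  set σ : ℝ := (Ex k j fun y => (L x y : ℝ)) - gam k * j with hσ
  have hσ0 : 0 < σ := by rw [hσ]; linarith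
  have hg0 := hP.gam_pos
  have hgj : 0 < gam k * j := by positivity
  set t : ℝ := σ / (2 * (gam k * j + σ)) with ht
  have ht0 : 0 < t := by positivity
  have ht1 : t * (gam k * j + σ) = σ / 2 := by rw [ht]; field_simp
  have ht2 : t ≤ 1 := by
    rw [ht, div_le_one (by positivity)]; linarith
  set q : List (Fin k) → List (Fin k) → ℝ := qx t x with hq
  have hqlow : ∀ v u, t ≤ q v u := by
    intro v u
    rw [hq]; unfold qx
    have := ind_nonneg (u = x)
    have : 0 ≤ (1 - t) * ((k : ℝ) ^ x.length * ind (u = x)) :=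
      mul_nonneg (by linarith) (by positivity)
    linarith
  have hqup : ∀ v u, q v u ≤ 1 + (k : ℝ) ^ j := by
    intro v u
    rw [hq]; unfold qx
    have h1 := ind_nonneg (u = x)
    have h2 := ind_le_one (u = x)
    have h3 : (1 - t) * ((k : ℝ) ^ x.length * ind (u = x)) ≤ 1 * ((k : ℝ) ^ x.length * 1) := by
      refine mul_le_mul (by linarith) (mul_le_mul_of_nonneg_left h2 (by positivity))
        (by positivity) zero_le_one
    rw [one_mul, mul_one] at h3
    linarith
  set δ : ℝ := σ / 2 with hδ
  have hδ0 : 0 < δ := by positivity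
  set E₀ := Ex k j fun v => Ex k j fun u => q v u * Real.log (q v u) with hE₀
  set z : ℝ := |E₀| / δ + 1 with hz
  have hz0 : 0 < z := by positivity
  have hker : KerData k j z δ (max (-Real.log t) (Real.log (1 + (k : ℝ) ^ j))) q := by
    constructor
    · intro v u _ _
      refine le_trans ?_ (hqlow v u)
      calc Real.exp (-(max (-Real.log t) (Real.log (1 + (k : ℝ) ^ j)))) ≤
            Real.exp (-(-Real.log t)) := Real.exp_le_exp.mpr (neg_le_neg (le_max_left _ _))
        _ = t := by rw [neg_neg, Real.exp_log ht0]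
    · intro v u _ _
      refine (hqup v u).trans ?_
      calc 1 + (k : ℝ) ^ j = Real.exp (Real.log (1 + (k : ℝ) ^ j)) := by
            rw [Real.exp_log (by positivity)]
        _ ≤ _ := Real.exp_le_exp.mpr (le_max_right _ _)
    · intro v _
      have h1 := qx_mean hk t x v (fun _ => 1)
      simp only [mul_one] at h1
      rw [Ex_const hk] at h1
      rw [← hj] at h1
      have h2 : Ex k j (q v) = Ex k j fun u => qx t x v u := rfl
      rw [h2, h1]; ring
    · have h1 : (Ex k j fun v => Ex k j fun u => q v u * (L u v : ℝ)) =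
          Ex k j fun v => t * (Ex k j fun u => (L u v : ℝ)) + (1 - t) * (L x v : ℝ) :=
        Ex_congr fun v _ => qx_mean hk t x v (fun u => (L u v : ℝ))
      rw [h1, Ex_add, Ex_const_mul, Ex_const_mul]
      have h2 : 0 ≤ t * Ex k j fun v => Ex k j fun u => (L u v : ℝ) :=
        mul_nonneg ht0.le (Ex_nonneg fun _ _ => Ex_nonneg fun _ _ => Nat.cast_nonneg _)
      have h3 : (Ex k j fun v => (L x v : ℝ)) = gam k * j + σ := by rw [hσ]; ring
      rw [h3]
      have h4 : (1 - t) * (gam k * j + σ) = gam k * j + σ - t * (gam k * j + σ) := by ring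
      rw [h4, ht1]
      linarith
    · have h1 : z * δ = |E₀| + δ := by rw [hz]; field_simp
      rw [h1]
      have := le_abs_self E₀
      linarith
  obtain ⟨R, hR, hR1⟩ := ((hUL k hk2 hRig j z δ _ q hj1 hz0 hδ0 hker).and
    (eventually_ge_atTop 1)).exists
  set l := R * j with hl
  set e := ⌊(rho k - 1) * (l : ℝ)⌋₊ with he
  have hR0 : (0 : ℝ) < R := by exact_mod_cast hR1
  classical
  set win : List (List (Fin k)) → List (Fin k) → List (List (Fin k)) := fun xs y =>
    if h : xs ≠ [] then Classical.choose (hSPLIT k xs y h) else [] with hwin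
  have hopt : ∀ xs y, xs ≠ [] → OptWin xs y (win xs y) := by
    intro xs y h
    have h1 := Classical.choose_spec (hSPLIT k xs y h)
    have h2 : win xs y = Classical.choose (hSPLIT k xs y h) := by
      rw [hwin]; simp only; rw [dif_pos h]
    unfold OptWin
    rw [h2]
    exact h1
  obtain ⟨T, N, b, hN2, -, hT1, -, -, -, -, -, hluck, -⟩ := hR l e hl he win hopt 1
  have hT0 : (0 : ℝ) < T := by exact_mod_cast hT1
  have hN0 : (0 : ℝ) < N := by
    have : 0 < N := by omega
    exact_mod_cast this
  set θ : ℝ := 1 / (N : ℝ) with hθ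
  have hθ1 : θ < 1 := by
    rw [hθ, div_lt_one hN0]
    have : 1 < N := by omega
    exact_mod_cast this
  have hconv : (EB θ T fun bs => Exc k l (gmin θ (margR j q R)) T fun xs =>
        Exs k e T fun zs => Ex k b fun y => Ex k (e * T) fun y₂ =>
          Exk l (kernR j q R) (win xs y) fun cs => (L (splice bs xs cs zs) (y ++ y₂) : ℝ)) =
      F k (T * (l + e)) (b + e * T) := by
    have h1 := hUNIF k l e T θ (margR j q R)
      (fun u => Ex k (b + e * T) fun Y => (L u Y : ℝ)) hk hθ1 (isDens_margR hk hker R)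
    have h2 : F k (T * (l + e)) (b + e * T) =
        Ex k (T * (l + e)) fun u => Ex k (b + e * T) fun Y => (L u Y : ℝ) := rfl
    rw [h2, ← h1]
    refine EB_congr fun bs _ => Exc_congr fun xs hxs => ?_
    have hxs0 : xs ≠ [] := by
      rintro rfl
      have := hxs.1
      simp at this
      omega
    have h3 : (Exs k e T fun zs => Ex k b fun y => Ex k (e * T) fun y₂ =>
          Exk l (kernR j q R) (win xs y) fun cs => (L (splice bs xs cs zs) (y ++ y₂) : ℝ)) =
        Exs k e T fun zs => Exc k l (margR j q R) T fun cs =>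
          Ex k (b + e * T) fun Y => (L (splice bs xs cs zs) Y : ℝ) := by
      refine Exs_congr fun zs _ => ?_
      have h4 : (Ex k b fun y => Ex k (e * T) fun y₂ =>
          Exk l (kernR j q R) (win xs y) fun cs => (L (splice bs xs cs zs) (y ++ y₂) : ℝ)) =
          Ex k b fun y => Ex k (e * T) fun y₂ => Exc k l (margR j q R) T fun cs =>
            (L (splice bs xs cs zs) (y ++ y₂) : ℝ) := by
        refine Ex_congr fun y _ => Ex_congr fun y₂ _ => ?_
        rw [Exk_const_kernel l (margR j q R) (kernR j q R)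
          (fun v c => kernR_qx hk j t x R v c), (hopt xs y hxs0).1, hxs.1]
      rw [h4]
      have h5 : ∀ y : List (Fin k), (Ex k (e * T) fun y₂ => Exc k l (margR j q R) T fun cs =>
          (L (splice bs xs cs zs) (y ++ y₂) : ℝ)) = Exc k l (margR j q R) T fun cs =>
            Ex k (e * T) fun y₂ => (L (splice bs xs cs zs) (y ++ y₂) : ℝ) :=
        fun y => Ex_Exc_comm _ _ _
      simp only [h5]
      rw [Ex_Exc_comm]
      refine Exc_congr fun cs _ => ?_
      rw [Ex_append]
    rw [h3]
    unfold Exs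
    rw [Exc_comm]
  rw [hconv] at hluck
  have h1 := hP.F_le (T * (l + e)) (b + e * T)
  have h2 := hP.line ((T * (l + e) : ℕ) : ℝ) ((b + e * T : ℕ) : ℝ) (Nat.cast_nonneg _)
    (Nat.cast_nonneg _)
  have h3 : 0 < θ * T * R * (δ / 4) := by
    have : 0 < θ := by rw [hθ]; positivity
    positivity
  push_cast at h1 h2
  linarith

end Pool.Agent.LCSV
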