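import Pool.Agent.Work.MP_bec1e1_lv_helper15.LUInterface
import Pool.Agent.Work.MP_bec1e1_lv_h99.EXC

/-! # LU, block KERQ: Gibbs kernels from (Q) -/

set_option autoImplicit false

open Filter Topology
open scoped BigOperators

namespace Pool.Agent.LCSV

open Pool.Agent.LCSE

/-- **KERQ** -/
theorem stmt_KERQ : Stmt_KERQ := by
  intro hQ k hk hR z hz
  have hk0 : 0 < k := by omega
  obtain ⟨n, hn1, hn⟩ := hQ k hk hR z hz
  set Zv : List (Fin k) → ℝ := fun v => Ex k n fun x => Real.exp (z * (L x v : ℝ)) with hZv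
  set q : List (Fin k) → List (Fin k) → ℝ := fun v x => Real.exp (z * (L x v : ℝ)) / Zv v with hq
  have hnr : (0 : ℝ) < n := by exact_mod_cast hn1
  have hZ1 : ∀ v, 1 ≤ Zv v := fun v => const_le_Ex hk0 fun x _ => Real.one_le_exp (by positivity)
  have hZup : ∀ v, Zv v ≤ Real.exp (z * n) := fun v => Ex_le_const hk0 fun x hx => by
    refine Real.exp_le_exp.mpr (mul_le_mul_of_nonneg_left ?_ hz.le)
    exact_mod_cast hx ▸ L_le_left x v
  have hZ0 : ∀ v, 0 < Zv v := fun v => zero_lt_one.trans_le (hZ1 v)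
  have hqpos : ∀ v x, 0 < q v x := fun v x => div_pos (Real.exp_pos _) (hZ0 v)
  have hqone : ∀ v, Ex k n (q v) = 1 := by
    intro v
    have : Ex k n (q v) = Zv v / Zv v := by
      rw [← Ex_div]
    rw [this, div_self (hZ0 v).ne']
  have hlogq : ∀ v x, Real.log (q v x) = z * (L x v : ℝ) - Real.log (Zv v) := by
    intro v x
    rw [hq]
    simp only
    rw [Real.log_div (Real.exp_pos _).ne' (hZ0 v).ne', Real.log_exp]
  have hent : ∀ v, (Ex k n fun x => q v x * Real.log (q v x)) =
      z * (Ex k n fun x => q v x * (L x v : ℝ)) - Real.log (Zv v) := by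
    intro v
    have h1 : (Ex k n fun x => q v x * Real.log (q v x)) =
        Ex k n fun x => z * (q v x * (L x v : ℝ)) - q v x * Real.log (Zv v) :=
      Ex_congr fun x _ => by rw [hlogq]; ring
    rw [h1, Ex_sub, Ex_const_mul, Ex_mul_const, hqone, one_mul]
  have hgibbs : ∀ v, 0 ≤ Ex k n fun x => q v x * Real.log (q v x) := by
    intro v
    have h1 : (Ex k n fun x => q v x - 1) ≤ Ex k n fun x => q v x * Real.log (q v x) := by
      refine Ex_mono fun x _ => ?_
      have h2 := Real.one_sub_inv_le_log_of_pos (hqpos v x)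
      have h3 := mul_le_mul_of_nonneg_left h2 (hqpos v x).le
      rw [mul_sub, mul_one, mul_inv_cancel₀ (hqpos v x).ne'] at h3
      exact h3
    rw [Ex_sub, hqone, Ex_const hk0, sub_self] at h1
    exact h1
  have hE : (Ex k n fun v => Ex k n fun x => q v x * Real.log (q v x)) =
      z * (Ex k n fun v => Ex k n fun x => q v x * (L x v : ℝ)) - Ex k n fun v => Real.log (Zv v) := by
    simp only [hent]
    rw [Ex_sub, Ex_const_mul]
  have hE0 : 0 ≤ Ex k n fun v => Ex k n fun x => q v x * Real.log (q v x) :=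
    Ex_nonneg fun v _ => hgibbs v
  set Λ := Ex k n fun v => Ex k n fun x => q v x * (L x v : ℝ) with hΛ
  have hn' : z * gam k * n < Ex k n fun v => Real.log (Zv v) := hn
  have hδ : 0 < Λ - gam k * n := by
    have h1 : z * (gam k * n) < z * Λ := by
      rw [hE] at hE0
      linarith
    have := lt_of_mul_lt_mul_left h1 hz.le
    linarith
  refine ⟨n, Λ - gam k * n, z * n, q, hn1, hδ, by positivity, ?_⟩
  constructor
  · intro v x _ _
    rw [hq]
    simp only
    rw [le_div_iff₀ (hZ0 v)]
    calc Real.exp (-(z * n)) * Zv v ≤ Real.exp (-(z * n)) * Real.exp (z * n) :=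
          mul_le_mul_of_nonneg_left (hZup v) (Real.exp_pos _).le
      _ = 1 := by rw [← Real.exp_add]; simp
      _ ≤ Real.exp (z * (L x v : ℝ)) := Real.one_le_exp (by positivity)
  · intro v x _ hx
    rw [hq]
    simp only
    rw [div_le_iff₀ (hZ0 v)]
    calc Real.exp (z * (L x v : ℝ)) ≤ Real.exp (z * n) := by
          refine Real.exp_le_exp.mpr (mul_le_mul_of_nonneg_left ?_ hz.le)
          exact_mod_cast hx ▸ L_le_left x v
      _ ≤ Real.exp (z * n) * Zv v := le_mul_of_one_le_right (Real.exp_pos _).le (hZ1 v)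
  · exact fun v _ => hqone v
  · linarith
  · rw [hE]
    nlinarith

end Pool.Agent.LCSV
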