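import Pool.Agent.Work.MP_bec1e1_LU_h57.ULC

/-! # LU, block ULUCK: luck and entropy of the planted word -/

set_option autoImplicit false

open Filter Topology
open scoped BigOperators

namespace Pool.Agent.LCSU

open Pool.Agent.LCSE Pool.Agent.LCSV

noncomputable section

variable {k : ℕ}

lemma margR_one (hk : 0 < k) {n : ℕ} {z δ b : ℝ} {q : List (Fin k) → List (Fin k) → ℝ}
    (hq : KerData k n z δ b q) (R : ℕ) : Ex k (R * n) (margR n q R) = 1 := by
  induction R with
  | zero => simp [margR]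
  | succ R ih =>
    rw [show (R + 1) * n = n + R * n by ring, Ex_append]
    have h1 : (Ex k n fun u => Ex k (R * n) fun w => margR n q (R + 1) (u ++ w)) =
        Ex k n fun u => Ex k (R * n) fun w => marg n q u * margR n q R w :=
      Ex_congr fun u hu => Ex_congr fun w _ => margR_append R hu
    rw [h1, Ex_prod, marg_one hk hq, ih, one_mul]

lemma isDens_margR (hk : 0 < k) {n : ℕ} {z δ b : ℝ} {q : List (Fin k) → List (Fin k) → ℝ}
    (hq : KerData k n z δ b q) (R : ℕ) : IsDens k (R * n) (margR n q R) :=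
  ⟨fun _ hw => (margR_pos hk hq R hw).le, margR_one hk hq R⟩

lemma isDens_gmin (hk : 0 < k) {l : ℕ} {g₁ : List (Fin k) → ℝ} (hg : IsDens k l g₁) {θ : ℝ}
    (hθ1 : θ ≤ 1 / 2) (h : ∀ w, w.length = l → θ * g₁ w ≤ 1 / 2) :
    IsDens k l (gmin θ g₁) := by
  constructor
  · intro w hw
    unfold gmin
    have := h w hw
    exact div_nonneg (by linarith) (by linarith)
  · have h2 : Ex k l (gmin θ g₁) = (1 - θ * Ex k l g₁) / (1 - θ) := by
      have h3 : Ex k l (gmin θ g₁) = Ex k l fun w => (1 - θ * g₁ w) / (1 - θ) := rfl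
      rw [h3, Ex_div, Ex_sub, Ex_const hk, Ex_const_mul]
    rw [h2, hg.one, mul_one, div_self (by linarith)]

lemma gmin_le_two {l : ℕ} {g₁ : List (Fin k) → ℝ} (hg : IsDens k l g₁) {θ : ℝ}
    (h0 : 0 ≤ θ) (hθ1 : θ ≤ 1 / 2) (w : List (Fin k)) (hw : w.length = l) :
    gmin θ g₁ w ≤ 2 := by
  unfold gmin
  rw [div_le_iff₀ (by linarith)]
  have := mul_nonneg h0 (hg.nonneg w hw)
  linarith

lemma eventually_le_sqrt (M : ℝ) : ∀ᶠ T : ℕ in atTop, M ≤ √(T : ℝ) :=
  (Real.tendsto_sqrt_atTop.comp tendsto_natCast_atTop_atTop).eventually_ge_atTop M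

lemma eventually_le_nat (M : ℝ) : ∀ᶠ T : ℕ in atTop, M ≤ (T : ℝ) :=
  tendsto_natCast_atTop_atTop.eventually_ge_atTop M

end

end Pool.Agent.LCSU

namespace Pool.Agent.LCSV

open Pool.Agent.LCSE Pool.Agent.LCSU

/-- **ULUCK** -/
theorem stmt_ULUCK (hDEF : Stmt_DEF) (hPHI : Stmt_PHI) (hBP : Stmt_BASEP) (hTY : Stmt_TYPP)
    (hS : Stmt_SPLV) : Stmt_ULUCK := by
  intro k hk2 hRig n z δ b₀ q hn hz hδ hq
  have hk : 0 < k := by omega
  have hk0 : (0 : ℝ) < k := by exact_mod_cast hk
  have hn0 : (0 : ℝ) < n := by exact_mod_cast hn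
  have hn1 : (1 : ℝ) ≤ n := by exact_mod_cast hn
  have hP := hPHI k hk2
  obtain ⟨C, hC0, hD⟩ := hDEF k hk2
  obtain ⟨C₁, hC₁, hB⟩ := hBP k hk2 hRig
  have hb := b_nonneg hk hq
  have hrho := hP.rho_one
  have hrk := hP.rho_lt
  have hal : al k ≤ 1 / 2 := by
    have := hP.gam_lt
    unfold al; linarith
  have hal0 : 0 ≤ al k := by
    have := hP.gam_pos
    unfold al; linarith
  -- constants
  set x : ℝ := δ / 32 with hx
  set x' : ℝ := z * δ / 2 with hx'
  set x'' : ℝ := δ / (32 * n) with hx''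
  have hx0 : 0 < x := by positivity
  have hx0' : 0 < x' := by positivity
  have hx0'' : 0 < x'' := by positivity
  obtain ⟨ε, hε, hε1, hε2, hε3, hε4⟩ : ∃ ε : ℝ, 0 < ε ∧ ε ≤ 1 ∧ ε ≤ δ / (80 * n) ∧
      ε ≤ δ / (4 * (n + k * n + δ)) ∧ ε ≤ z * δ / (4 * (b₀ + 1)) := by
    refine ⟨min 1 (min (δ / (80 * n)) (min (δ / (4 * (n + k * n + δ))) (z * δ / (4 * (b₀ + 1))))),
      ?_, min_le_left _ _, (min_le_right _ _).trans (min_le_left _ _),
      (min_le_right _ _).trans ((min_le_right _ _).trans (min_le_left _ _)),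
      (min_le_right _ _).trans ((min_le_right _ _).trans (min_le_right _ _))⟩
    refine lt_min one_pos (lt_min (by positivity) (lt_min (by positivity) (by positivity)))
  obtain ⟨c, hc, hbad⟩ := badW_prob hk hn hz hδ hq hx0 hx0' hx0''
  set η : ℝ := c / (2 * n) with hη
  have hη0 : 0 < η := by positivity
  obtain ⟨τ₁, hτ₁, hTl⟩ := hTY k hk2 hP ε η hε hη0
  have hRn : Tendsto (fun R : ℕ => R * n) atTop atTop :=
    tendsto_id.atTop_mul_const' hn
  filter_upwards [hRn.eventually hTl, eventually_ge_atTop 1, eventually_le_nat (4 / c),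
    eventually_le_nat (16 * (n + 1) / δ), eventually_le_nat (512 * C ^ 2 * k * n / δ ^ 2)]
    with R hTy hR1 hRc hRn1 hRC l e hl he win hwin T₀
  subst hl
  set l : ℕ := R * n with hl
  have hR0 : (1 : ℝ) ≤ R := by exact_mod_cast hR1
  have hlr : (l : ℝ) = R * n := by rw [hl]; push_cast; ring
  have hl0 : (0 : ℝ) < l := by rw [hlr]; positivity
  have hl1 : 1 ≤ l := Nat.mul_pos hR1 hn
  have hRδ : 0 < R * δ := by positivity
  have he0 : (0 : ℝ) ≤ e := Nat.cast_nonneg _
  have he1 : (e : ℝ) ≤ (rho k - 1) * l := by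
    rw [he]; exact Nat.floor_le (mul_nonneg (by linarith) hl0.le)
  have hek : (e : ℝ) ≤ k * (R * n) := by
    rw [← hlr]
    exact he1.trans (mul_le_mul_of_nonneg_right (by linarith) hl0.le)
  -- numerical condition of `good_cell`
  have hnum : R * (2 * ε * n + x + 3 * ε * n + x'' * n) + (n + 1 + C * √(2 * e)) ≤ R * (δ / 4) := by
    have h1 : 5 * (ε * n) ≤ δ / 16 := by
      rw [le_div_iff₀ (by positivity)] at hε2
      linarith
    have h2 : x'' * n = δ / 32 := by rw [hx'']; field_simp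
    have h3 : R * (2 * ε * n + x + 3 * ε * n + x'' * n) ≤ R * (δ / 8) := by
      refine mul_le_mul_of_nonneg_left ?_ (by linarith)
      rw [h2, hx]; linarith
    have h4 : (n : ℝ) + 1 ≤ R * (δ / 16) := by
      rw [div_le_iff₀ hδ] at hRn1
      linarith
    have h5 : C * √(2 * e) ≤ R * (δ / 16) := by
      have h6 : √(2 * (e : ℝ)) ≤ R * δ / (16 * C) := by
        rw [Real.sqrt_le_left (by positivity)]
        rw [div_le_iff₀ (by positivity)] at hRC
        calc 2 * (e : ℝ) ≤ 2 * (k * (R * n)) := by linarith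
          _ = (512 * C ^ 2 * k * n) * R / (256 * C ^ 2) := by field_simp; ring
          _ ≤ (R * δ ^ 2) * R / (256 * C ^ 2) := by
              refine div_le_div_of_nonneg_right ?_ (by positivity)
              exact mul_le_mul_of_nonneg_right hRC (by linarith)
          _ = (R * δ / (16 * C)) ^ 2 := by field_simp; ring
      calc C * √(2 * e) ≤ C * (R * δ / (16 * C)) := mul_le_mul_of_nonneg_left h6 hC0.le
        _ = R * (δ / 16) := by field_simp
    linarith
  -- constants after `R`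
  obtain ⟨A, hA1, hA2, hA3⟩ : ∃ A : ℝ, 1 ≤ A ∧ 16 * T₀ ≤ A * (R * δ) ∧
      8 * (C₁ * l + C * √(2 * e) + 1) ≤ A * (R * δ) := by
    refine ⟨1 + (16 * T₀ + 8 * (C₁ * l + C * √(2 * e) + 1)) / (R * δ), ?_, ?_, ?_⟩
    · have : 0 ≤ (16 * T₀ + 8 * (C₁ * l + C * √(2 * e) + 1)) / (R * δ) := by positivity
      linarith
    · have h1 : (1 + (16 * T₀ + 8 * (C₁ * l + C * √(2 * e) + 1)) / (R * δ)) * (R * δ) =
          R * δ + (16 * T₀ + 8 * (C₁ * l + C * √(2 * e) + 1)) := by field_simp
      rw [h1]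
      have : 0 ≤ 8 * (C₁ * l + C * √(2 * e) + 1) := by positivity
      linarith
    · have h1 : (1 + (16 * T₀ + 8 * (C₁ * l + C * √(2 * e) + 1)) / (R * δ)) * (R * δ) =
          R * δ + (16 * T₀ + 8 * (C₁ * l + C * √(2 * e) + 1)) := by field_simp
      rw [h1]
      have : (0 : ℝ) ≤ 16 * T₀ := by positivity
      linarith
  have hA0 : 0 < A := by linarith
  obtain ⟨τ, hτ0, hττ₁, hτρ⟩ : ∃ τ : ℝ, 0 < τ ∧ τ ≤ τ₁ ∧ (1 < rho k → τ ≤ rho k - 1) := by
    rcases eq_or_lt_of_le hrho with h | h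
    · exact ⟨τ₁, hτ₁, le_rfl, fun h' => absurd h' (by linarith)⟩
    · exact ⟨min τ₁ (rho k - 1), lt_min hτ₁ (by linarith), min_le_left _ _,
        fun _ => min_le_right _ _⟩
  set C' : ℝ := 2 * al k * e / (1 - 1 / rho k) ^ 2 * (A + A ^ 2) with hC'
  obtain ⟨T₁, hT₁⟩ := eventually_atTop.mp ((hTy.and (eventually_le_sqrt (C₁ / τ₁))).and
    (((eventually_le_sqrt (2 * T₀)).and (eventually_le_sqrt C')).and
      ((eventually_le_sqrt (2 * A)).and (eventually_ge_atTop 1))))
  obtain ⟨T, b, hTT, hflat, hτb, hAT, hAg, hbase⟩ :=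
    hB l (margR n q R) hl1 (isDens_margR hk hq R) A τ hA0 hτ0 T₁
  obtain ⟨⟨hTyT, hsC⟩, ⟨⟨hsT₀, hsC'⟩, ⟨hsA, hT1⟩⟩⟩ := hT₁ T hTT
  have hT0 : (0 : ℝ) < T := by exact_mod_cast hT1
  set S := √(T : ℝ) with hSdef
  have hSS : S * S = T := Real.mul_self_sqrt hT0.le
  have hS0 : 0 < S := Real.sqrt_pos.mpr hT0
  have hS1 : 1 ≤ S := by linarith
  -- the number of colours
  set N := ⌈S / A⌉₊ with hN
  have hNge : S / A ≤ N := Nat.le_ceil _
  have hSA : 2 ≤ S / A := by rw [le_div_iff₀ hA0]; linarith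
  have hN2 : 2 ≤ N := by
    have : (2 : ℝ) ≤ N := hSA.trans hNge
    exact_mod_cast this
  have hN0 : (0 : ℝ) < N := by linarith
  have hNle : (N : ℝ) ≤ 2 * (S / A) := by
    have := (Nat.ceil_lt_add_one (a := S / A) (by positivity)).le
    rw [← hN] at this
    linarith
  set θ : ℝ := 1 / (N : ℝ) with hθ
  have hθ0 : 0 ≤ θ := by positivity
  have hθA : θ ≤ A / S := by
    rw [hθ, div_le_div_iff₀ hN0 hS0]
    rw [div_le_iff₀ hA0] at hNge
    linarith
  have hθ2 : θ ≤ 1 / 2 := hθA.trans hAT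
  have hθ1 : θ ≤ 1 := by linarith
  have hθT : A * S / 2 ≤ θ * T := by
    rw [hθ, div_mul_eq_mul_div, one_mul, le_div_iff₀ hN0]
    calc A * S / 2 * N ≤ A * S / 2 * (2 * (S / A)) :=
          mul_le_mul_of_nonneg_left hNle (by positivity)
      _ = S * S := by field_simp
      _ = T := hSS
  have hg1 := isDens_margR hk hq R
  have hθg : ∀ w, w.length = l → θ * margR n q R w ≤ 1 / 2 := fun w hw =>
    (mul_le_mul_of_nonneg_right hθA (hg1.nonneg w hw)).trans (hAg w hw)
  have hgd : IsDens k l (gmin θ (margR n q R)) := isDens_gmin hk hg1 hθ2 hθg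
  -- the direction
  have hTlr : ((T * l : ℕ) : ℝ) = T * l := by push_cast; ring
  have hfi := (hP.flat_iff _ _ (Nat.cast_nonneg _) (Nat.cast_nonneg _)).mp hflat
  rw [hTlr] at hfi
  have hTl0 : (0 : ℝ) ≤ T * l := by positivity
  have hTlb : (T : ℝ) * l ≤ b := by
    rcases eq_or_lt_of_le hrho with h | h
    · have := hfi.2
      rw [← h, one_mul] at this
      exact this
    · have := hτρ h
      nlinarith
  have hbk : (b : ℝ) ≤ k * (T * l) := hfi.1.trans (mul_le_mul_of_nonneg_right hrk.le hTl0)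
  -- the mean of the base
  have hbase' := hbase θ hθ0 hθA
  -- typical windows
  set bad : List (Fin k) → List (Fin k) → Prop := fun _ v => BadW k n R e q z δ x x' x'' v
    with hbaddef
  have hbadp : ∀ c' : ℕ, (Ex k l fun w => Ex k c' fun v => ind (bad w v)) ≤
      Real.exp (-(η * l)) := by
    intro c'
    have h1 := hbad R e c' hR1
    refine (Ex_le_const hk fun w _ => h1).trans ?_
    have h2 : η * l = c * R / 2 := by rw [hη, hlr]; field_simp
    rw [h2]
    have h3 : (3 : ℝ) ≤ Real.exp (c * R / 2) := by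
      rw [div_le_iff₀ hc] at hRc
      have := Real.add_one_le_exp (c * R / 2)
      linarith
    calc 3 * Real.exp (-(c * R)) ≤ Real.exp (c * R / 2) * Real.exp (-(c * R)) :=
          mul_le_mul_of_nonneg_right h3 (Real.exp_pos _).le
      _ = Real.exp (-(c * R / 2)) := by rw [← Real.exp_add]; congr 1; ring
  have hwinT : ∀ xs y, xs.length = T → OptWin xs y (win xs y) := by
    intro xs y hxs
    refine hwin xs y ?_
    rintro rfl
    simp at hxs
    omega
  have hC1τ : C₁ * S ≤ τ₁ * T := by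
    rw [div_le_iff₀ hτ₁] at hsC
    have := mul_le_mul_of_nonneg_right hsC hS0.le
    rw [← hSS]; linarith
  have hsum := hTyT (gmin θ (margR n q R)) bad b win hgd
    (fun w hw => gmin_le_two hg1 hθ0 hθ2 w hw) hbadp hwinT
    (by
      refine le_trans ?_ hτb
      exact mul_le_mul_of_nonneg_right (by linarith) hTl0)
    hfi.1
    (by
      refine le_trans ?_ hbase'
      have := mul_le_mul_of_nonneg_left hC1τ hl0.le
      linarith)
  set i : List (Fin k) → List (Fin k) → ℝ := fun w v =>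
      ind (bad w v ∨ ε * l < |(v.length : ℝ) - rho k * l| ∨ Phi k l v.length + ε * l < (L w v : ℝ) ∨
        (L w v : ℝ) < Phi k l v.length - ε * l) with hi
  set Sg := Exc k l (gmin θ (margR n q R)) T fun xs => Ex k b fun y =>
    (List.zipWith i xs (win xs y)).sum with hSg
  have hSgle : Sg ≤ ε * T := hsum
  -- one cell
  set Ac : ℝ := al k * e + 3 / 4 * (R * δ) with hAc
  set Bc : ℝ := l + Ac with hBc
  have hAc0 : 0 ≤ Ac := by positivity
  have hBc0 : 0 ≤ Bc := by positivity
  have hcell : ∀ w v : List (Fin k), w.length = l →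
      (L w v : ℝ) + θ * (Ac - Bc * i w v) ≤
        θ * Gv l e (kernR n q R) v + (1 - θ) * (L w v : ℝ) := by
    intro w v hw
    suffices h : (L w v : ℝ) + (Ac - Bc * i w v) ≤ Gv l e (kernR n q R) v by
      have := mul_le_mul_of_nonneg_left h hθ0
      linarith
    by_cases hE : bad w v ∨ ε * l < |(v.length : ℝ) - rho k * l| ∨
        Phi k l v.length + ε * l < (L w v : ℝ) ∨ (L w v : ℝ) < Phi k l v.length - ε * l
    · have h1 : i w v = 1 := ind_of hE
      rw [h1, hBc]
      have h2 := Gv_nonneg hk hq R e v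
      have h3 : (L w v : ℝ) ≤ l := by exact_mod_cast hw ▸ L_le_left w v
      linarith
    · have h1 : i w v = 0 := ind_of_not hE
      rw [h1, mul_zero, sub_zero]
      push Not at hE
      obtain ⟨g1, g2, g3, -⟩ := hE
      exact good_cell hk2 hP hC0.le hD hn hδ hq hε hε1 hR1 he hnum g1 g2 g3
  have hluck := luck_low hk hS hθ0 hθ1 hT1 hgd (b := b) (e := e)
    (fun v w hw => (kernR_pos hk hq R v hw).le) (kernR_one hk hq R) hwin hcell
  -- the padding
  have hsq : √(2 * ((e : ℝ) * T)) = √(2 * e) * S := by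
    rw [← mul_assoc, Real.sqrt_mul (by positivity)]
  have hpad : al k * (2 * e * T - e * (θ * T)) - C * (√(2 * e) * S) - S ≤
      EB θ T (fun bs => F k (e * nu bs) (e * T)) := by
    rcases eq_or_lt_of_le hrho with h | h
    · have he0' : e = 0 := by
        rw [he, ← h, sub_self, zero_mul, Nat.floor_zero]
      have h1 : 0 ≤ EB θ T (fun bs => F k (e * nu bs) (e * T)) :=
        EB_nonneg hθ0 hθ1 fun bs _ => F_nonneg _ _
      rw [he0'] at h1 ⊢
      simp only [Nat.cast_zero, mul_zero, zero_mul, sub_zero, Real.sqrt_zero] at h1 ⊢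
      linarith
    · have h1 := pad_low hP hC0.le hD h hθ0 hθ1 e T hT1
      rw [hsq] at h1
      refine le_trans ?_ h1
      have hc1 : 0 < 1 - 1 / rho k := by
        have : 1 / rho k < 1 := by rw [div_lt_one (by linarith)]; exact h
        linarith
      have h2 : 2 * al k * e / ((1 - 1 / rho k) ^ 2 * T) * (θ * T + θ ^ 2 * T ^ 2) ≤ S := by
        refine le_trans ?_ hsC'
        have h3 : 2 * al k * e / ((1 - 1 / rho k) ^ 2 * T) * (θ * T + θ ^ 2 * T ^ 2) =
            2 * al k * e / (1 - 1 / rho k) ^ 2 * (θ + θ ^ 2 * T) := by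
          field_simp
        rw [h3, hC']
        refine mul_le_mul_of_nonneg_left ?_ (by positivity)
        have h4 : θ ≤ A := hθA.trans (div_le_self hA0.le hS1)
        have h5 : θ ^ 2 * T ≤ A ^ 2 := by
          have h6 : θ * S ≤ A := by
            rw [le_div_iff₀ hS0] at hθA
            exact hθA
          calc θ ^ 2 * T = (θ * S) ^ 2 := by rw [← hSS]; ring
            _ ≤ A ^ 2 := pow_le_pow_left₀ (by positivity) h6 2
        linarith
      linarith
  have hBε : Bc * ε ≤ R * δ / 4 := by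
    have h1 : Bc ≤ (n + k * n + δ) * R := by
      rw [hBc, hAc, hlr]
      have h2 : al k * e ≤ k * (R * n) := by
        have : al k * e ≤ 1 * e := mul_le_mul_of_nonneg_right (by linarith) he0
        linarith
      have h3 : 3 / 4 * (R * δ) ≤ R * δ := by linarith
      linarith
    rw [le_div_iff₀ (by positivity)] at hε3
    calc Bc * ε ≤ (n + k * n + δ) * R * ε := mul_le_mul_of_nonneg_right h1 hε.le
      _ = R * (ε * (4 * (n + k * n + δ))) / 4 := by ring
      _ ≤ R * δ / 4 := by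
          refine div_le_div_of_nonneg_right ?_ (by norm_num)
          exact mul_le_mul_of_nonneg_left hε3 (by linarith)
  refine ⟨T, N, b, hN2, ?_, hT1, hflat, ?_, ?_, hθg, ?_, ?_, ?_⟩
  · have h1 : (T₀ : ℝ) * N ≤ T := by
      calc (T₀ : ℝ) * N ≤ T₀ * (2 * (S / A)) := mul_le_mul_of_nonneg_left hNle (Nat.cast_nonneg _)
        _ ≤ T₀ * (2 * S) := by
            refine mul_le_mul_of_nonneg_left ?_ (Nat.cast_nonneg _)
            have := div_le_self hS0.le hA1
            linarith
        _ = 2 * T₀ * S := by ring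
        _ ≤ S * S := mul_le_mul_of_nonneg_right hsT₀ hS0.le
        _ = T := hSS
    exact_mod_cast h1
  · exact_mod_cast hTlb
  · exact_mod_cast hbk
  · have h1 := mul_le_mul_of_nonneg_right hA2 hS0.le
    have h2 := mul_le_mul_of_nonneg_right hθT hRδ.le
    linarith
  · refine le_trans ?_ hluck
    have h1 : θ * (T * Ac - Bc * (ε * T)) ≤ θ * (T * Ac - Bc * Sg) := by
      refine mul_le_mul_of_nonneg_left ?_ hθ0
      have := mul_le_mul_of_nonneg_left hSgle hBc0
      linarith
    have hθT0 : 0 ≤ θ * T := by positivity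
    have h2 : θ * T * (al k * e + R * δ / 2) ≤ θ * (T * Ac - Bc * (ε * T)) := by
      have h3 := mul_le_mul_of_nonneg_left hBε hθT0
      rw [hAc]
      linarith
    have h4 := mul_le_mul_of_nonneg_right hA3 hS0.le
    have h5 := mul_le_mul_of_nonneg_right hθT hRδ.le
    have h6 : C₁ * l * S + C * (√(2 * e) * S) + S ≤ θ * T * (R * δ) / 4 := by linarith
    have h7 : al k * ((T : ℝ) * (l + e) + (b + e * T)) =
        al k * ((T : ℝ) * l + b) + al k * (2 * e * T) := by ring
    rw [h7]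
    linarith
  · have hent : ∀ w v : List (Fin k), KLv l (kernR n q R) (margR n q R) v ≤
        R * (z * δ + x') + (R * (2 * b₀)) * i w v := by
      intro w v
      rw [hl, kernR_ent hk hq R v]
      by_cases hE : bad w v ∨ ε * l < |(v.length : ℝ) - rho k * l| ∨
          Phi k l v.length + ε * l < (L w v : ℝ) ∨ (L w v : ℝ) < Phi k l v.length - ε * l
      · have h1 : i w v = 1 := ind_of hE
        rw [h1]
        have h2 := SB_le (n := n) (by positivity : 0 ≤ 2 * b₀) (fun w hw => DSq_le hk hq hw) R v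
        have h3 : 0 ≤ R * (z * δ + x') := by positivity
        linarith
      · have h1 : i w v = 0 := ind_of_not hE
        rw [h1, mul_zero, add_zero]
        push Not at hE
        have g1 : ¬ BadW k n R e q z δ x x' x'' v := hE.1
        unfold BadW at g1
        push Not at g1
        exact g1.2.1.le
    refine (ent_up hk hθ0 hT1 hgd hwin hent).trans ?_
    have h1 : θ * (T * (R * (z * δ + x')) + R * (2 * b₀) * Sg) ≤
        θ * (T * (R * (z * δ + x')) + R * (2 * b₀) * (ε * T)) := by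
      refine mul_le_mul_of_nonneg_left ?_ hθ0
      have : 0 ≤ R * (2 * b₀) := by positivity
      have := mul_le_mul_of_nonneg_left hSgle this
      linarith
    refine h1.trans ?_
    have h2 : 2 * b₀ * ε ≤ z * δ / 2 := by
      rw [le_div_iff₀ (by positivity)] at hε4
      have : 0 ≤ ε := hε.le
      linarith
    have hθT0 : 0 ≤ θ * T * R := by positivity
    have h3 := mul_le_mul_of_nonneg_left h2 hθT0
    rw [hx']
    linarith

end Pool.Agent.LCSV
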