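import Pool.Agent.Work.MP_bec1e1_lv_helper15.LUInterface
import Pool.Agent.Work.MP_bec1e1_lv_h99.EXC

/-! # Labels, contents and cell values: means (for ULUCK) -/

set_option autoImplicit false

open Filter Topology
open scoped BigOperators

namespace Pool.Agent.LCSU

open Pool.Agent.LCSE Pool.Agent.LCSV

noncomputable section

variable {k : ℕ}

/-! ### labels -/

lemma EB_zero (θ : ℝ) (f : List Bool → ℝ) : EB θ 0 f = f [] := rfl

lemma EB_succ (θ : ℝ) (T : ℕ) (f : List Bool → ℝ) : EB θ (T + 1) f =
    θ * EB θ T (fun bs => f (true :: bs)) + (1 - θ) * EB θ T (fun bs => f (false :: bs)) := rfl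

lemma EB_congr {θ : ℝ} {T : ℕ} {f f' : List Bool → ℝ} (h : ∀ bs, bs.length = T → f bs = f' bs) :
    EB θ T f = EB θ T f' := by
  induction T generalizing f f' with
  | zero => exact h [] rfl
  | succ T ih =>
    rw [EB_succ, EB_succ, ih fun bs hb => h (true :: bs) (by simp [hb]),
      ih fun bs hb => h (false :: bs) (by simp [hb])]

lemma EB_mono {θ : ℝ} (h0 : 0 ≤ θ) (h1 : θ ≤ 1) {T : ℕ} {f f' : List Bool → ℝ}
    (h : ∀ bs, bs.length = T → f bs ≤ f' bs) : EB θ T f ≤ EB θ T f' := by
  induction T generalizing f f' with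
  | zero => exact h [] rfl
  | succ T ih =>
    rw [EB_succ, EB_succ]
    exact add_le_add
      (mul_le_mul_of_nonneg_left (ih fun bs hb => h (true :: bs) (by simp [hb])) h0)
      (mul_le_mul_of_nonneg_left (ih fun bs hb => h (false :: bs) (by simp [hb])) (by linarith))

lemma EB_add (θ : ℝ) (T : ℕ) (f f' : List Bool → ℝ) :
    EB θ T (fun bs => f bs + f' bs) = EB θ T f + EB θ T f' := by
  induction T generalizing f f' with
  | zero => rfl
  | succ T ih => simp only [EB_succ, ih]; ring

lemma EB_const_mul (θ : ℝ) (T : ℕ) (c : ℝ) (f : List Bool → ℝ) :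
    EB θ T (fun bs => c * f bs) = c * EB θ T f := by
  induction T generalizing f with
  | zero => rfl
  | succ T ih => simp only [EB_succ, ih]; ring

lemma EB_sub (θ : ℝ) (T : ℕ) (f f' : List Bool → ℝ) :
    EB θ T (fun bs => f bs - f' bs) = EB θ T f - EB θ T f' := by
  have h : ∀ bs : List Bool, f bs - f' bs = f bs + (-1) * f' bs := fun bs => by ring
  simp only [h]
  rw [EB_add, EB_const_mul]; ring

lemma EB_const (θ : ℝ) (T : ℕ) (c : ℝ) : EB θ T (fun _ => c) = c := by
  induction T with
  | zero => rfl
  | succ T ih => rw [EB_succ, ih]; ring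

lemma EB_nonneg {θ : ℝ} (h0 : 0 ≤ θ) (h1 : θ ≤ 1) {T : ℕ} {f : List Bool → ℝ}
    (h : ∀ bs, bs.length = T → 0 ≤ f bs) : 0 ≤ EB θ T f := by
  have := EB_mono h0 h1 (f := fun _ => 0) h
  rwa [EB_const] at this

lemma EB_Ex_comm (θ : ℝ) (T n : ℕ) (f : List Bool → List (Fin k) → ℝ) :
    EB θ T (fun bs => Ex k n fun w => f bs w) = Ex k n fun w => EB θ T fun bs => f bs w := by
  induction T generalizing f with
  | zero => rfl
  | succ T ih =>
    simp only [EB_succ, ih]
    rw [Ex_add, Ex_const_mul, Ex_const_mul]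

lemma EB_Exc_comm (θ : ℝ) (T s T' : ℕ) (g : List (Fin k) → ℝ)
    (f : List Bool → List (List (Fin k)) → ℝ) :
    EB θ T (fun bs => Exc k s g T' fun l => f bs l) =
      Exc k s g T' fun l => EB θ T fun bs => f bs l := by
  induction T generalizing f with
  | zero => rfl
  | succ T ih =>
    simp only [EB_succ, ih]
    rw [Exc_add, Exc_const_mul, Exc_const_mul]

/-- number of labels -/
def nl (bs : List Bool) : ℕ := bs.count true

/-- number of unlabelled cells -/
def nu (bs : List Bool) : ℕ := bs.count false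

@[simp] lemma nl_nil : nl [] = 0 := rfl
@[simp] lemma nl_true (bs : List Bool) : nl (true :: bs) = nl bs + 1 := by simp [nl]
@[simp] lemma nl_false (bs : List Bool) : nl (false :: bs) = nl bs := by simp [nl]
@[simp] lemma nu_nil : nu [] = 0 := rfl
@[simp] lemma nu_true (bs : List Bool) : nu (true :: bs) = nu bs := by simp [nu]
@[simp] lemma nu_false (bs : List Bool) : nu (false :: bs) = nu bs + 1 := by simp [nu]

lemma nl_add_nu (bs : List Bool) : nl bs + nu bs = bs.length := by
  induction bs with
  | nil => rfl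
  | cons b bs ih => cases b <;> simp <;> omega

lemma EB_nl (θ : ℝ) (T : ℕ) : EB θ T (fun bs => (nl bs : ℝ)) = θ * T := by
  induction T with
  | zero => simp [EB_zero]
  | succ T ih =>
    rw [EB_succ]
    simp only [nl_true, nl_false]
    push_cast
    rw [EB_add, EB_const, ih]; ring

lemma EB_nl_sq {θ : ℝ} (T : ℕ) :
    EB θ T (fun bs => (nl bs : ℝ) ^ 2) ≤ θ * T + θ ^ 2 * T ^ 2 := by
  induction T with
  | zero => simp [EB_zero]
  | succ T ih =>
    rw [EB_succ]
    simp only [nl_true, nl_false]
    have h1 : EB θ T (fun bs => ((nl bs + 1 : ℕ) : ℝ) ^ 2) =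
        EB θ T (fun bs => (nl bs : ℝ) ^ 2) + (2 * (θ * T) + 1) := by
      have h2 : ∀ bs : List Bool, ((nl bs + 1 : ℕ) : ℝ) ^ 2 =
          (nl bs : ℝ) ^ 2 + (2 * (nl bs : ℝ) + 1) := fun bs => by push_cast; ring
      simp only [h2]
      rw [EB_add, EB_add, EB_const_mul, EB_const, EB_nl]
    rw [h1]
    push_cast
    nlinarith [sq_nonneg θ]

/-! ### contents -/

lemma Exk_nil (l : ℕ) (K : List (Fin k) → List (Fin k) → ℝ) (f : List (List (Fin k)) → ℝ) :
    Exk l K [] f = f [] := rfl

lemma Exk_cons (l : ℕ) (K : List (Fin k) → List (Fin k) → ℝ) (v : List (Fin k))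
    (vs : List (List (Fin k))) (f : List (List (Fin k)) → ℝ) :
    Exk l K (v :: vs) f = Ex k l fun c => K v c * Exk l K vs fun cs => f (c :: cs) := rfl

lemma Exk_congr {l : ℕ} {K : List (Fin k) → List (Fin k) → ℝ} {vs : List (List (Fin k))}
    {f f' : List (List (Fin k)) → ℝ} (h : ∀ cs, IsCells l vs.length cs → f cs = f' cs) :
    Exk l K vs f = Exk l K vs f' := by
  induction vs generalizing f f' with
  | nil => exact h [] (isCells_nil l)
  | cons v vs ih =>
    rw [Exk_cons, Exk_cons]
    refine Ex_congr fun c hc => ?_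
    rw [ih fun cs hcs => h (c :: cs) (isCells_cons.mpr ⟨hc, hcs⟩)]

lemma Exk_mono {l : ℕ} {K : List (Fin k) → List (Fin k) → ℝ}
    (hK : ∀ v c, c.length = l → 0 ≤ K v c) {vs : List (List (Fin k))}
    {f f' : List (List (Fin k)) → ℝ} (h : ∀ cs, IsCells l vs.length cs → f cs ≤ f' cs) :
    Exk l K vs f ≤ Exk l K vs f' := by
  induction vs generalizing f f' with
  | nil => exact h [] (isCells_nil l)
  | cons v vs ih =>
    rw [Exk_cons, Exk_cons]
    refine Ex_mono fun c hc => mul_le_mul_of_nonneg_left ?_ (hK v c hc)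
    exact ih fun cs hcs => h (c :: cs) (isCells_cons.mpr ⟨hc, hcs⟩)

lemma Exk_add (l : ℕ) (K : List (Fin k) → List (Fin k) → ℝ) (vs : List (List (Fin k)))
    (f f' : List (List (Fin k)) → ℝ) :
    Exk l K vs (fun cs => f cs + f' cs) = Exk l K vs f + Exk l K vs f' := by
  induction vs generalizing f f' with
  | nil => rfl
  | cons v vs ih =>
    simp only [Exk_cons, ih, mul_add]
    rw [Ex_add]

lemma Exk_const {l : ℕ} {K : List (Fin k) → List (Fin k) → ℝ} (hK : ∀ v, Ex k l (K v) = 1)
    (vs : List (List (Fin k))) (c : ℝ) : Exk l K vs (fun _ => c) = c := by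
  induction vs with
  | nil => rfl
  | cons v vs ih => rw [Exk_cons]; simp only [ih]; rw [Ex_mul_const, hK, one_mul]

/-! ### cell values -/

/-- value of the cells after averaging over the contents and the fresh words -/
def cv (G : List (Fin k) → ℝ) : List Bool → List (List (Fin k)) → List (List (Fin k)) → ℝ
  | true :: bs, _ :: xs, v :: vs => G v + cv G bs xs vs
  | false :: bs, x :: xs, v :: vs => (L x v : ℝ) + cv G bs xs vs
  | _, _, _ => 0

/-- mean value of a labelled cell with window `v` -/
def Gv (l e : ℕ) (K : List (Fin k) → List (Fin k) → ℝ) (v : List (Fin k)) : ℝ :=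
  (Ex k l fun c => K v c * (L c (v.take l) : ℝ)) + Ex k e fun z => (L z (v.drop l) : ℝ)

lemma cellVal_mean (hk : 0 < k) {l e : ℕ} {K : List (Fin k) → List (Fin k) → ℝ}
    (hK : ∀ v, Ex k l (K v) = 1) :
    ∀ (T : ℕ) (bs : List Bool) (xs vs : List (List (Fin k))), bs.length = T → xs.length = T →
      vs.length = T →
      (Exs k e T fun zs => Exk l K vs fun cs => cellVal l bs xs cs zs vs) = cv (Gv l e K) bs xs vs := by
  intro T
  induction T with
  | zero =>
    intro bs xs vs h1 h2 h3
    obtain rfl := List.length_eq_zero_iff.1 h1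
    obtain rfl := List.length_eq_zero_iff.1 h2
    obtain rfl := List.length_eq_zero_iff.1 h3
    rfl
  | succ T ih =>
    intro bs xs vs h1 h2 h3
    obtain ⟨b, bs, rfl⟩ := List.exists_cons_of_length_eq_add_one h1
    obtain ⟨x, xs, rfl⟩ := List.exists_cons_of_length_eq_add_one h2
    obtain ⟨v, vs, rfl⟩ := List.exists_cons_of_length_eq_add_one h3
    simp only [List.length_cons, Nat.add_right_cancel_iff] at h1 h2 h3
    have ih' := ih bs xs vs h1 h2 h3
    rw [Exs_succ]
    cases b with
    | true =>
      simp only [cellVal, cv, Exk_cons]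
      have h4 : ∀ (z : List (Fin k)) (zs : List (List (Fin k))), (Ex k l fun c => K v c *
          Exk l K vs fun cs => (L c (v.take l) : ℝ) + L z (v.drop l) + cellVal l bs xs cs zs vs) =
          (Ex k l fun c => K v c * (L c (v.take l) : ℝ)) + L z (v.drop l) +
            Exk l K vs fun cs => cellVal l bs xs cs zs vs := by
        intro z zs
        have h5 : ∀ c : List (Fin k), (K v c * Exk l K vs fun cs =>
            (L c (v.take l) : ℝ) + L z (v.drop l) + cellVal l bs xs cs zs vs) =
            K v c * (L c (v.take l) : ℝ) + K v c * ((L z (v.drop l) : ℝ) +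
              Exk l K vs fun cs => cellVal l bs xs cs zs vs) := by
          intro c
          rw [Exk_add, Exk_const hK]; ring
        simp only [h5]
        rw [Ex_add, Ex_mul_const, hK, one_mul, add_assoc]
      simp only [h4]
      have h6 : ∀ z : List (Fin k), (Exs k e T fun zs => (Ex k l fun c => K v c *
          (L c (v.take l) : ℝ)) + L z (v.drop l) + Exk l K vs fun cs => cellVal l bs xs cs zs vs) =
          (Ex k l fun c => K v c * (L c (v.take l) : ℝ)) + L z (v.drop l) + cv (Gv l e K) bs xs vs := by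
        intro z
        rw [Exs_add, Exs_const hk, ih']
      simp only [h6]
      rw [Ex_add, Ex_add, Ex_const hk, Ex_const hk]
      rfl
    | false =>
      simp only [cellVal, cv, Exk_cons]
      have h4 : ∀ (zs : List (List (Fin k))), (Ex k l fun c => K v c *
          Exk l K vs fun cs => (L x v : ℝ) + cellVal l bs xs cs zs vs) =
          (L x v : ℝ) + Exk l K vs fun cs => cellVal l bs xs cs zs vs := by
        intro zs
        rw [Exk_add, Exk_const hK, Ex_mul_const, hK, one_mul]
      simp only [h4]
      rw [Ex_const hk, Exs_add, Exs_const hk, ih']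

lemma EB_cv (θ : ℝ) (G : List (Fin k) → ℝ) :
    ∀ (T : ℕ) (xs vs : List (List (Fin k))), xs.length = T → vs.length = T →
      EB θ T (fun bs => cv G bs xs vs) =
        (List.zipWith (fun x v => θ * G v + (1 - θ) * (L x v : ℝ)) xs vs).sum := by
  intro T
  induction T with
  | zero =>
    intro xs vs h2 h3
    obtain rfl := List.length_eq_zero_iff.1 h2
    obtain rfl := List.length_eq_zero_iff.1 h3
    rfl
  | succ T ih =>
    intro xs vs h2 h3
    obtain ⟨x, xs, rfl⟩ := List.exists_cons_of_length_eq_add_one h2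
    obtain ⟨v, vs, rfl⟩ := List.exists_cons_of_length_eq_add_one h3
    simp only [List.length_cons, Nat.add_right_cancel_iff] at h2 h3
    rw [EB_succ]
    simp only [cv, List.zipWith_cons_cons, List.sum_cons]
    rw [EB_add, EB_add, EB_const, EB_const, ih xs vs h2 h3]
    ring

lemma EB_labSum (θ : ℝ) (h : List (Fin k) → ℝ) :
    ∀ (T : ℕ) (vs : List (List (Fin k))), vs.length = T →
      EB θ T (fun bs => labSum bs vs h) = θ * (vs.map h).sum := by
  intro T
  induction T with
  | zero =>
    intro vs h3
    obtain rfl := List.length_eq_zero_iff.1 h3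
    simp [EB_zero, labSum]
  | succ T ih =>
    intro vs h3
    obtain ⟨v, vs, rfl⟩ := List.exists_cons_of_length_eq_add_one h3
    simp only [List.length_cons, Nat.add_right_cancel_iff] at h3
    rw [EB_succ]
    simp only [labSum, List.map_cons, List.sum_cons]
    rw [EB_add, EB_const, ih vs h3]
    ring

/-! ### padding -/

lemma pad_mean (hk : 0 < k) (e : ℕ) (f : List (Fin k) → ℝ) :
    ∀ (T : ℕ) (bs : List Bool), bs.length = T →
      (Exs k e T fun zs => f (pad bs zs)) = Ex k (e * nu bs) f := by
  intro T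
  induction T generalizing f with
  | zero =>
    intro bs h1
    obtain rfl := List.length_eq_zero_iff.1 h1
    simp [pad]
  | succ T ih =>
    intro bs h1
    obtain ⟨b, bs, rfl⟩ := List.exists_cons_of_length_eq_add_one h1
    simp only [List.length_cons, Nat.add_right_cancel_iff] at h1
    rw [Exs_succ]
    cases b with
    | true =>
      simp only [pad, nu_true]
      have h2 := ih f bs h1
      rw [h2]
      exact Ex_const hk _ _
    | false =>
      simp only [pad, nu_false]
      have h2 : ∀ z : List (Fin k), (Exs k e T fun zs => f (pad bs zs ++ z)) =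
          Ex k (e * nu bs) fun w => f (w ++ z) := fun z => ih (fun w => f (w ++ z)) bs h1
      simp only [h2]
      rw [Ex_comm, mul_add, mul_one, Ex_append]

end

end Pool.Agent.LCSU
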