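import Pool.Agent.Work.MP_bec1e1_lv_helper15.LUInterface
import Pool.Agent.Work.MP_bec1e1_lv_h99.EXC
import Pool.Agent.Work.MP_bec1e1_TOOLP_h28.MGFC

/-! # Sums over the full blocks of a window; luck and entropy of the kernel (for ULUCK) -/

set_option autoImplicit false

open Filter Topology
open scoped BigOperators

namespace Pool.Agent.LCSU

open Pool.Agent.LCSE Pool.Agent.LCSV

noncomputable section

variable {k : ℕ}

/-- sum of `h` over the full blocks of length `n` among the first `R` blocks -/
def SB (n : ℕ) (h : List (Fin k) → ℝ) : ℕ → List (Fin k) → ℝ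
  | 0, _ => 0
  | R + 1, v => (if n ≤ v.length then h (v.take n) else 0) + SB n h R (v.drop n)

lemma SB_succ (n : ℕ) (h : List (Fin k) → ℝ) (R : ℕ) (v : List (Fin k)) :
    SB n h (R + 1) v = (if n ≤ v.length then h (v.take n) else 0) + SB n h R (v.drop n) := rfl

lemma SB_nil {n : ℕ} (hn : 1 ≤ n) (h : List (Fin k) → ℝ) (R : ℕ) : SB n h R [] = 0 := by
  induction R with
  | zero => rfl
  | succ R ih =>
    rw [SB_succ]
    rw [List.drop_nil, ih, if_neg (by simp; omega), add_zero]

lemma SB_short {n : ℕ} (hn : 1 ≤ n) (h : List (Fin k) → ℝ) (R : ℕ) {v : List (Fin k)}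
    (hv : v.length < n) : SB n h R v = 0 := by
  cases R with
  | zero => rfl
  | succ R =>
    rw [SB_succ]
    rw [if_neg (by omega), List.drop_eq_nil_of_le (by omega), SB_nil hn, add_zero]

lemma SB_nonneg {n : ℕ} {h : List (Fin k) → ℝ} (h0 : ∀ w, w.length = n → 0 ≤ h w) (R : ℕ)
    (v : List (Fin k)) : 0 ≤ SB n h R v := by
  induction R generalizing v with
  | zero => exact le_rfl
  | succ R ih =>
    rw [SB_succ]
    refine add_nonneg ?_ (ih _)
    split_ifs with hv
    · exact h0 _ (by simp [hv])
    · exact le_rfl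

lemma SB_le {n : ℕ} {h : List (Fin k) → ℝ} {M : ℝ} (hM0 : 0 ≤ M)
    (h0 : ∀ w, w.length = n → h w ≤ M) (R : ℕ) (v : List (Fin k)) : SB n h R v ≤ R * M := by
  induction R generalizing v with
  | zero => simp [SB]
  | succ R ih =>
    rw [SB_succ]
    push_cast
    have h1 := ih (v.drop n)
    have h2 : (if n ≤ v.length then h (v.take n) else 0) ≤ M := by
      split_ifs with hv
      · exact h0 _ (by simp [hv])
      · exact hM0
    linarith

/-- exponential moments -/
lemma SB_mgf (hk : 0 < k) {n : ℕ} (hn : 1 ≤ n) (h : List (Fin k) → ℝ) (t : ℝ) (R c : ℕ) :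
    (Ex k c fun v => Real.exp (t * SB n h R v)) =
      (Ex k n fun w => Real.exp (t * h w)) ^ (min R (c / n)) := by
  induction R generalizing c with
  | zero => simp [SB, Ex_const hk]
  | succ R ih =>
    rcases lt_or_ge c n with hc | hc
    · rw [Nat.div_eq_of_lt hc, Nat.min_zero, pow_zero, ← Ex_const hk c 1]
      refine Ex_congr fun v hv => ?_
      rw [SB_short hn h (R + 1) (by omega), mul_zero, Real.exp_zero]
    · obtain ⟨c', rfl⟩ := Nat.exists_eq_add_of_le hc
      rw [Ex_append]
      have h1 : (Ex k n fun u => Ex k c' fun v => Real.exp (t * SB n h (R + 1) (u ++ v))) =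
          Ex k n fun u => Ex k c' fun v => Real.exp (t * h u) * Real.exp (t * SB n h R v) := by
        refine Ex_congr fun u hu => Ex_congr fun v _ => ?_
        rw [← Real.exp_add]
        congr 1
        rw [SB_succ]
        rw [if_pos (by simp; omega), List.take_left' hu, List.drop_left' hu]
        ring
      rw [h1, Ex_prod, ih]
      have h2 : (n + c') / n = c' / n + 1 := by
        rw [Nat.add_div_left _ (by omega)]
      rw [h2, Nat.succ_min_succ, pow_succ, mul_comm]

/-- upper tail -/
lemma SB_tail_ge (hk : 0 < k) {n : ℕ} (hn : 1 ≤ n) (h : List (Fin k) → ℝ) {M μ x : ℝ}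
    (hM : 0 < M) (h0 : ∀ w, w.length = n → 0 ≤ h w) (h1 : ∀ w, w.length = n → h w ≤ M)
    (hμ : Ex k n h ≤ μ) (hμ0 : 0 ≤ μ) (hx : 0 ≤ x) (R c : ℕ) :
    (Ex k c fun v => ind ((R : ℝ) * (μ + x) ≤ SB n h R v)) ≤
      Real.exp (-(2 * x ^ 2 / M ^ 2 * R)) := by
  set t := 4 * x / M ^ 2 with ht
  have ht0 : 0 ≤ t := by positivity
  have h2 := Ex_chernoff c (SB n h R) ht0 ((R : ℝ) * (μ + x))
  rw [SB_mgf hk hn] at h2
  have h3 : (Ex k n fun w => Real.exp (t * h w)) ≤ Real.exp (t * μ + t ^ 2 * M ^ 2 / 8) := by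
    have h4 := MGFAux.hoeffding_Ex hk n (fun _ => (1 : ℝ)) h (fun _ _ => zero_le_one)
      (Ex_const hk n 1) M (fun w w' hw hw' => by
        rw [abs_le]
        constructor <;> linarith [h0 w hw, h0 w' hw', h1 w hw, h1 w' hw']) t
    simp only [one_mul] at h4
    have h5 : (Ex k n fun w => Real.exp (t * h w)) =
        Real.exp (t * Ex k n h) * Ex k n fun w => Real.exp (t * (h w - Ex k n h)) := by
      rw [← Ex_const_mul]
      refine Ex_congr fun w _ => ?_
      rw [← Real.exp_add]; congr 1; ring
    rw [h5, Real.exp_add]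
    refine mul_le_mul ?_ h4 (Ex_nonneg fun w _ => (Real.exp_pos _).le) (Real.exp_pos _).le
    exact Real.exp_le_exp.mpr (mul_le_mul_of_nonneg_left hμ ht0)
  have h6 : (Ex k n fun w => Real.exp (t * h w)) ^ (min R (c / n)) ≤
      Real.exp (t * μ + t ^ 2 * M ^ 2 / 8) ^ R := by
    calc (Ex k n fun w => Real.exp (t * h w)) ^ (min R (c / n)) ≤
        Real.exp (t * μ + t ^ 2 * M ^ 2 / 8) ^ (min R (c / n)) :=
          pow_le_pow_left₀ (Ex_nonneg fun w _ => (Real.exp_pos _).le) h3 _
      _ ≤ Real.exp (t * μ + t ^ 2 * M ^ 2 / 8) ^ R :=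
          pow_le_pow_right₀ (Real.one_le_exp (by positivity)) (Nat.min_le_left _ _)
  refine h2.trans ((mul_le_mul_of_nonneg_left h6 (Real.exp_pos _).le).trans_eq ?_)
  rw [← Real.exp_nat_mul, ← Real.exp_add]
  congr 1
  rw [ht]
  field_simp
  ring

/-- lower tail -/
lemma SB_tail_le (hk : 0 < k) {n : ℕ} (hn : 1 ≤ n) (h : List (Fin k) → ℝ) {M μ x : ℝ}
    (hM : 0 < M) (h0 : ∀ w, w.length = n → 0 ≤ h w) (h1 : ∀ w, w.length = n → h w ≤ M)
    (hμ : μ ≤ Ex k n h) (hx : 0 ≤ x) (R c : ℕ) :
    (Ex k c fun v => ind (SB n h R v ≤ ((min R (c / n) : ℕ) : ℝ) * μ - R * x)) ≤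
      Real.exp (-(2 * x ^ 2 / M ^ 2 * R)) := by
  set t := 4 * x / M ^ 2 with ht
  have ht0 : 0 ≤ t := by positivity
  set m := min R (c / n) with hm
  have h2 := Ex_chernoff c (fun v => - SB n h R v) ht0 (-((m : ℝ) * μ - R * x))
  have h2' : (Ex k c fun v => ind (-((m : ℝ) * μ - R * x) ≤ - SB n h R v)) =
      Ex k c fun v => ind (SB n h R v ≤ (m : ℝ) * μ - R * x) :=
    Ex_congr fun v _ => ind_congr neg_le_neg_iff
  rw [h2'] at h2
  have h2'' : (Ex k c fun v => Real.exp (t * - SB n h R v)) =
      Ex k c fun v => Real.exp ((-t) * SB n h R v) :=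
    Ex_congr fun v _ => by congr 1; ring
  rw [h2'', SB_mgf hk hn, ← hm] at h2
  have h3 : (Ex k n fun w => Real.exp ((-t) * h w)) ≤ Real.exp (-(t * μ) + t ^ 2 * M ^ 2 / 8) := by
    have h4 := MGFAux.hoeffding_Ex hk n (fun _ => (1 : ℝ)) h (fun _ _ => zero_le_one)
      (Ex_const hk n 1) M (fun w w' hw hw' => by
        rw [abs_le]
        constructor <;> linarith [h0 w hw, h0 w' hw', h1 w hw, h1 w' hw']) (-t)
    simp only [one_mul, neg_sq] at h4
    have h5 : (Ex k n fun w => Real.exp ((-t) * h w)) =
        Real.exp ((-t) * Ex k n h) * Ex k n fun w => Real.exp ((-t) * (h w - Ex k n h)) := by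
      rw [← Ex_const_mul]
      refine Ex_congr fun w _ => ?_
      rw [← Real.exp_add]; congr 1; ring
    rw [h5, Real.exp_add]
    refine mul_le_mul ?_ h4 (Ex_nonneg fun w _ => (Real.exp_pos _).le) (Real.exp_pos _).le
    refine Real.exp_le_exp.mpr ?_
    have := mul_le_mul_of_nonneg_left hμ ht0
    linarith
  have h6 : (Ex k n fun w => Real.exp ((-t) * h w)) ^ m ≤
      Real.exp (-(t * μ) + t ^ 2 * M ^ 2 / 8) ^ m :=
    pow_le_pow_left₀ (Ex_nonneg fun w _ => (Real.exp_pos _).le) h3 _
  refine h2.trans ((mul_le_mul_of_nonneg_left h6 (Real.exp_pos _).le).trans ?_)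
  rw [← Real.exp_nat_mul, ← Real.exp_add]
  refine Real.exp_le_exp.mpr ?_
  have hmR : (m : ℝ) ≤ R := by exact_mod_cast Nat.min_le_left _ _
  have h7 : (m : ℝ) * (t ^ 2 * M ^ 2 / 8) ≤ R * (t ^ 2 * M ^ 2 / 8) :=
    mul_le_mul_of_nonneg_right hmR (by positivity)
  have h8 : t ^ 2 * M ^ 2 / 8 = 2 * x ^ 2 / M ^ 2 := by
    rw [ht]; field_simp; ring
  have h9 : t * x = 4 * x ^ 2 / M ^ 2 := by rw [ht]; ring
  have h10 : t * (R * x) = 4 * x ^ 2 / M ^ 2 * R := by
    rw [show t * (R * x) = t * x * R by ring, h9]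
  rw [h8] at h7
  have h11 : 4 * x ^ 2 / M ^ 2 * R = 2 * x ^ 2 / M ^ 2 * R + 2 * x ^ 2 / M ^ 2 * R := by ring
  have h12 : -(t * -((m : ℝ) * μ - R * x)) + (m : ℝ) * (-(t * μ) + t ^ 2 * M ^ 2 / 8) =
      - (t * (R * x)) + m * (2 * x ^ 2 / M ^ 2) := by rw [h8]; ring
  rw [h12, h10]
  linarith

/-! ### the kernel -/

/-- luck of a block -/
def LKq (n : ℕ) (q : List (Fin k) → List (Fin k) → ℝ) (w : List (Fin k)) : ℝ :=
  Ex k n fun x => q w x * (L x w : ℝ)

/-- relative entropy of a block -/
def DSq (n : ℕ) (q : List (Fin k) → List (Fin k) → ℝ) (w : List (Fin k)) : ℝ :=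
  Ex k n fun x => q w x * Real.log (q w x / marg n q x)

section kernel

variable {n : ℕ} {z δ b : ℝ} {q : List (Fin k) → List (Fin k) → ℝ}

lemma q_pos (hq : KerData k n z δ b q) {v x : List (Fin k)} (hv : v.length = n)
    (hx : x.length = n) : 0 < q v x := (Real.exp_pos _).trans_le (hq.low v x hv hx)

lemma marg_low (hk : 0 < k) (hq : KerData k n z δ b q) {x : List (Fin k)} (hx : x.length = n) :
    Real.exp (-b) ≤ marg n q x := const_le_Ex hk fun v hv => hq.low v x hv hx

lemma marg_up (hk : 0 < k) (hq : KerData k n z δ b q) {x : List (Fin k)} (hx : x.length = n) :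
    marg n q x ≤ Real.exp b := Ex_le_const hk fun v hv => hq.up v x hv hx

lemma marg_pos (hk : 0 < k) (hq : KerData k n z δ b q) {x : List (Fin k)} (hx : x.length = n) :
    0 < marg n q x := (Real.exp_pos _).trans_le (marg_low hk hq hx)

lemma marg_one (hk : 0 < k) (hq : KerData k n z δ b q) : Ex k n (marg n q) = 1 := by
  unfold marg
  rw [Ex_comm, ← Ex_const hk n 1]
  exact Ex_congr fun v hv => hq.one v hv

/-- first factor of the kernel -/
def phq (n : ℕ) (q : List (Fin k) → List (Fin k) → ℝ) (v u : List (Fin k)) : ℝ :=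
  if n ≤ v.length then q (v.take n) u else marg n q u

lemma phq_pos (hk : 0 < k) (hq : KerData k n z δ b q) (v : List (Fin k)) {u : List (Fin k)}
    (hu : u.length = n) : 0 < phq n q v u := by
  unfold phq
  split_ifs with hv
  · exact q_pos hq (by simp [hv]) hu
  · exact marg_pos hk hq hu

lemma phq_one (hk : 0 < k) (hq : KerData k n z δ b q) (v : List (Fin k)) :
    Ex k n (phq n q v) = 1 := by
  unfold phq
  split_ifs with hv
  · exact hq.one _ (by simp [hv])
  · exact marg_one hk hq

lemma kernR_append (R : ℕ) (v : List (Fin k)) {u w : List (Fin k)} (hu : u.length = n) :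
    kernR n q (R + 1) v (u ++ w) = phq n q v u * kernR n q R (v.drop n) w := by
  unfold phq
  rw [kernR, List.take_left' hu, List.drop_left' hu]

lemma margR_append (R : ℕ) {u w : List (Fin k)} (hu : u.length = n) :
    margR n q (R + 1) (u ++ w) = marg n q u * margR n q R w := by
  rw [margR, List.take_left' hu, List.drop_left' hu]

lemma kernR_pos (hk : 0 < k) (hq : KerData k n z δ b q) (R : ℕ) (v : List (Fin k))
    {x : List (Fin k)} (hx : x.length = R * n) : 0 < kernR n q R v x := by
  induction R generalizing v x with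
  | zero => exact one_pos
  | succ R ih =>
    rw [← List.take_append_drop n x, kernR_append R v (by simp [hx]; nlinarith)]
    refine mul_pos (phq_pos hk hq v (by simp [hx]; nlinarith)) (ih _ ?_)
    rw [List.length_drop, hx, Nat.succ_mul]; omega

lemma margR_pos (hk : 0 < k) (hq : KerData k n z δ b q) (R : ℕ)
    {x : List (Fin k)} (hx : x.length = R * n) : 0 < margR n q R x := by
  induction R generalizing x with
  | zero => exact one_pos
  | succ R ih =>
    rw [← List.take_append_drop n x, margR_append R (by simp [hx]; nlinarith)]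
    refine mul_pos (marg_pos hk hq (by simp [hx]; nlinarith)) (ih ?_)
    rw [List.length_drop, hx, Nat.succ_mul]; omega

lemma kernR_one (hk : 0 < k) (hq : KerData k n z δ b q) (R : ℕ) (v : List (Fin k)) :
    Ex k (R * n) (kernR n q R v) = 1 := by
  induction R generalizing v with
  | zero => simp [kernR]
  | succ R ih =>
    rw [show (R + 1) * n = n + R * n by ring, Ex_append]
    have h1 : (Ex k n fun u => Ex k (R * n) fun w => kernR n q (R + 1) v (u ++ w)) =
        Ex k n fun u => Ex k (R * n) fun w => phq n q v u * kernR n q R (v.drop n) w :=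
      Ex_congr fun u hu => Ex_congr fun w _ => kernR_append R v hu
    rw [h1, Ex_prod, phq_one hk hq, ih, one_mul]

lemma LKq_nonneg (hq : KerData k n z δ b q) {w : List (Fin k)} (hw : w.length = n) :
    0 ≤ LKq n q w := Ex_nonneg fun x hx => mul_nonneg (q_pos hq hw hx).le (Nat.cast_nonneg _)

lemma LKq_le (hq : KerData k n z δ b q) {w : List (Fin k)} (hw : w.length = n) :
    LKq n q w ≤ n := by
  have h1 : LKq n q w ≤ Ex k n fun x => q w x * n := by
    refine Ex_mono fun x hx => mul_le_mul_of_nonneg_left ?_ (q_pos hq hw hx).le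
    exact_mod_cast hx ▸ L_le_left x w
  rw [Ex_mul_const, hq.one w hw, one_mul] at h1
  exact h1

lemma LKq_mean (hq : KerData k n z δ b q) : gam k * n + δ ≤ Ex k n (LKq n q) := hq.luck

lemma mul_log_div_ge {x y : ℝ} (hx : 0 < x) (hy : 0 < y) : x - y ≤ x * Real.log (x / y) := by
  have h2 := Real.one_sub_inv_le_log_of_pos (div_pos hx hy)
  have h3 := mul_le_mul_of_nonneg_left h2 hx.le
  rw [mul_sub, mul_one, inv_div, mul_div_cancel₀ _ hx.ne'] at h3
  exact h3

lemma DSq_nonneg (hk : 0 < k) (hq : KerData k n z δ b q) {w : List (Fin k)} (hw : w.length = n) :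
    0 ≤ DSq n q w := by
  have h1 : (Ex k n fun x => q w x - marg n q x) ≤ DSq n q w :=
    Ex_mono fun x hx => mul_log_div_ge (q_pos hq hw hx) (marg_pos hk hq hx)
  rw [Ex_sub, hq.one w hw, marg_one hk hq, sub_self] at h1
  exact h1

lemma DSq_le (hk : 0 < k) (hq : KerData k n z δ b q) {w : List (Fin k)} (hw : w.length = n) :
    DSq n q w ≤ 2 * b := by
  have h1 : DSq n q w ≤ Ex k n fun x => q w x * (2 * b) := by
    refine Ex_mono fun x hx => mul_le_mul_of_nonneg_left ?_ (q_pos hq hw hx).le
    rw [Real.log_le_iff_le_exp (div_pos (q_pos hq hw hx) (marg_pos hk hq hx)),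
      div_le_iff₀ (marg_pos hk hq hx)]
    calc q w x ≤ Real.exp b := hq.up w x hw hx
      _ = Real.exp (2 * b) * Real.exp (-b) := by rw [← Real.exp_add]; congr 1; ring
      _ ≤ Real.exp (2 * b) * marg n q x :=
          mul_le_mul_of_nonneg_left (marg_low hk hq hx) (Real.exp_pos _).le
  rw [Ex_mul_const, hq.one w hw, one_mul] at h1
  exact h1

lemma DSq_mean (hk : 0 < k) (hq : KerData k n z δ b q) : Ex k n (DSq n q) ≤ z * δ := by
  have h1 : Ex k n (DSq n q) = (Ex k n fun w => Ex k n fun x => q w x * Real.log (q w x)) -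
      Ex k n fun x => marg n q x * Real.log (marg n q x) := by
    have h2 : Ex k n (DSq n q) = Ex k n fun w => Ex k n fun x =>
        q w x * Real.log (q w x) - q w x * Real.log (marg n q x) := by
      refine Ex_congr fun w hw => Ex_congr fun x hx => ?_
      rw [Real.log_div (q_pos hq hw hx).ne' (marg_pos hk hq hx).ne']; ring
    rw [h2]
    simp only [Ex_sub]
    congr 1
    rw [Ex_comm]
    refine Ex_congr fun x hx => ?_
    rw [Ex_mul_const]
    rfl
  have h3 : 0 ≤ Ex k n fun x => marg n q x * Real.log (marg n q x) := by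
    have h4 : (Ex k n fun x => marg n q x - 1) ≤
        Ex k n fun x => marg n q x * Real.log (marg n q x) := by
      refine Ex_mono fun x hx => ?_
      have := mul_log_div_ge (marg_pos hk hq hx) one_pos
      rwa [div_one] at this
    rw [Ex_sub, marg_one hk hq, Ex_const hk, sub_self] at h4
    exact h4
  have := hq.ent
  linarith

/-- luck of the contents -/
lemma kernR_luck (hk : 0 < k) (hq : KerData k n z δ b q) (R : ℕ) (v : List (Fin k)) :
    SB n (LKq n q) R v ≤ Ex k (R * n) fun c => kernR n q R v c * (L c (v.take (R * n)) : ℝ) := by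
  induction R generalizing v with
  | zero => simp [SB, kernR]
  | succ R ih =>
    rw [show (R + 1) * n = n + R * n by ring, Ex_append]
    have h1 : (Ex k n fun u => Ex k (R * n) fun w => phq n q v u * kernR n q R (v.drop n) w *
        ((L u (v.take n) : ℝ) + L w ((v.drop n).take (R * n)))) ≤
        Ex k n fun u => Ex k (R * n) fun w =>
          kernR n q (R + 1) v (u ++ w) * (L (u ++ w) (v.take (n + R * n)) : ℝ) := by
      refine Ex_mono fun u hu => Ex_mono fun w hw => ?_
      rw [kernR_append R v hu, List.take_add]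
      refine mul_le_mul_of_nonneg_left ?_
        (mul_pos (phq_pos hk hq v hu) (kernR_pos hk hq R _ hw)).le
      exact_mod_cast L_append_ge _ _ _ _
    refine le_trans ?_ h1
    have h2 : (Ex k n fun u => Ex k (R * n) fun w => phq n q v u * kernR n q R (v.drop n) w *
        ((L u (v.take n) : ℝ) + L w ((v.drop n).take (R * n)))) =
        (Ex k n fun u => phq n q v u * (L u (v.take n) : ℝ)) +
        Ex k (R * n) fun w => kernR n q R (v.drop n) w * (L w ((v.drop n).take (R * n)) : ℝ) := by
      have h3 : ∀ u w : List (Fin k), phq n q v u * kernR n q R (v.drop n) w *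
          ((L u (v.take n) : ℝ) + L w ((v.drop n).take (R * n))) =
          phq n q v u * (L u (v.take n) : ℝ) * kernR n q R (v.drop n) w +
          phq n q v u * (kernR n q R (v.drop n) w * (L w ((v.drop n).take (R * n)) : ℝ)) :=
        fun u w => by ring
      simp only [h3, Ex_add]
      rw [Ex_prod, Ex_prod, kernR_one hk hq, phq_one hk hq, mul_one, one_mul]
    rw [h2]
    rw [SB_succ]
    refine add_le_add ?_ (ih _)
    split_ifs with hv
    · unfold LKq phq
      simp only [if_pos hv]
      exact le_rfl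
    · exact Ex_nonneg fun u hu => mul_nonneg (phq_pos hk hq v hu).le (Nat.cast_nonneg _)

/-- relative entropy of the contents -/
lemma kernR_ent (hk : 0 < k) (hq : KerData k n z δ b q) (R : ℕ) (v : List (Fin k)) :
    KLv (R * n) (kernR n q R) (margR n q R) v = SB n (DSq n q) R v := by
  unfold KLv
  induction R generalizing v with
  | zero => simp [SB, kernR, margR]
  | succ R ih =>
    rw [show (R + 1) * n = n + R * n by ring, Ex_append]
    have h1 : (Ex k n fun u => Ex k (R * n) fun w => kernR n q (R + 1) v (u ++ w) *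
        Real.log (kernR n q (R + 1) v (u ++ w) / margR n q (R + 1) (u ++ w))) =
        (Ex k n fun u => phq n q v u * Real.log (phq n q v u / marg n q u)) +
        Ex k (R * n) fun w => kernR n q R (v.drop n) w *
          Real.log (kernR n q R (v.drop n) w / margR n q R w) := by
      have h3 : (Ex k n fun u => Ex k (R * n) fun w => kernR n q (R + 1) v (u ++ w) *
          Real.log (kernR n q (R + 1) v (u ++ w) / margR n q (R + 1) (u ++ w))) =
          Ex k n fun u => Ex k (R * n) fun w =>
          phq n q v u * Real.log (phq n q v u / marg n q u) * kernR n q R (v.drop n) w +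
          phq n q v u * (kernR n q R (v.drop n) w *
            Real.log (kernR n q R (v.drop n) w / margR n q R w)) := by
        refine Ex_congr fun u hu => Ex_congr fun w hw => ?_
        have e1 := phq_pos hk hq v hu
        have e2 := marg_pos hk hq hu
        have e3 := kernR_pos hk hq R (v.drop n) hw
        have e4 := margR_pos hk hq R hw
        rw [kernR_append R v hu, margR_append R hu, mul_div_mul_comm,
          Real.log_mul (div_pos e1 e2).ne' (div_pos e3 e4).ne']
        ring
      rw [h3]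
      simp only [Ex_add]
      rw [Ex_prod, Ex_prod, kernR_one hk hq, phq_one hk hq, mul_one, one_mul]
    rw [h1, ih]
    rw [SB_succ]
    congr 1
    split_ifs with hv
    · unfold DSq phq
      simp only [if_pos hv]
    · rw [← Ex_zero_fun (k := k) n]
      refine Ex_congr fun u hu => ?_
      unfold phq
      simp only [if_neg hv]
      rw [div_self (marg_pos hk hq hu).ne', Real.log_one, mul_zero]

end kernel

end

end Pool.Agent.LCSU
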