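import Pool.Agent.Work.MP_bec1e1_LU_h57.ADIAG
import Pool.Agent.Work.MP_bec1e1_LU_h57.KERQ
import Pool.Agent.Work.MP_bec1e1_Q_h57.QBR
import Pool.Agent.Work.MP_bec1e1_FIN_h39.ALL
import Pool.Agent.Work.MP_bec1e1_lv_h99.UCONV
import Pool.Agent.Work.MP_bec1e1_LU_h28.TENS
import Pool.Agent.Work.MP_bec1e1_lv_helper15.LU_ONE
import Pool.Agent.Work.MP_bec1e1_LU_h83.ABSFIN
import Pool.Agent.Work.MP_bec1e1_LU_h83.UDOM
import Pool.Agent.Work.MP_bec1e1_lv_helper53.BLK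
import Pool.Agent.Work.MP_bec1e1_lv_helper53.BLOW
import Pool.Agent.Work.MP_bec1e1_lv_helper53.CHI
import Pool.Agent.Work.MP_bec1e1_lv_helper53.DPI
import Pool.Agent.Work.MP_bec1e1_lv_helper42.MULT
import Pool.Agent.Work.MP_bec1e1_lv_helper63.COL
import Pool.Agent.Work.MP_bec1e1_lv_helper49.LDPIU
import Pool.Agent.Work.MP_bec1e1_lv_helper49.LKERR
import Pool.Agent.Work.MP_bec1e1_lv_helper49.TALINE
import Pool.Agent.Work.MP_bec1e1_lv_helper49.TDIR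
import Pool.Agent.Work.MP_bec1e1_lv_helper49.TSUP
import Pool.Agent.Work.MP_bec1e1_lv_helper49.TSPLV
import Pool.Agent.Work.MP_bec1e1_lv_helper13.TYPP
import Pool.Agent.Work.MP_bec1e1_lv_helper14.UNIF
import Pool.Agent.Work.MP_bec1e1_lv_helper14.GLUE
import Pool.Agent.Work.MP_bec1e1_DEF_h67.STMT
import Pool.Agent.Work.MP_bec1e1_BASE_h85.Base
import Pool.Agent.Work.MP_bec1e1_BASEP_h97.BASEP
import Pool.Agent.Work.MP_bec1e1_TOOLP_h28.CU

set_option autoImplicit false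

namespace Pool.Agent.LCSV

theorem top_DEF : Stmt_DEF := LCSD.stmt_DEF

theorem top_Q : Stmt_Q := stmt_Q top_DEF

theorem top_BASE : Stmt_BASE := LCSB85.stmt_BASE fin_PHI top_DEF

theorem top_BASEP : Stmt_BASEP := stmt_BASEP top_BASE stmt_CHI stmt_MGF fin_PHI

theorem top_TYPP : Stmt_TYPP := TP.stmt_TYPP stmt_CU stmt_DIR stmt_MGF stmt_MCD

theorem top_ULUCK : Stmt_ULUCK := stmt_ULUCK top_DEF fin_PHI top_BASEP top_TYPP stmt_SPLV

theorem top_ADIAG : Stmt_ADIAG := stmt_ADIAG top_ULUCK fin_PHI stmt_UNIF stmt_SPLIT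

theorem top_A : Stmt_A := stmt_ALINE top_ADIAG fin_PHI stmt_SUP

theorem top_ABS : Stmt_ABS := stmt_ABSFIN stmt_TENS
  (stmt_ONE stmt_BLK stmt_MULT stmt_COL (dpiu_of stmt_DPI) (stmt_BLOW stmt_MCD))

theorem top_UNITDATA : Stmt_UNITDATA :=
  stmt_UCONV top_DEF fin_PHI stmt_KERQ stmt_KERR stmt_UDOM stmt_UNIF top_ULUCK top_Q

theorem top_LU : Stmt_LU := lu_of top_ABS top_UNITDATA

theorem top_MAIN : Stmt_MAIN := stmt_FIN top_DEF top_A top_LU

end Pool.Agent.LCSV
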