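import Pool.Agent.Work.MP_bec1e1_LU_h57.PLA
import Pool.Agent.Work.MP_bec1e1_LU_h57.SB

/-! # ULUCK: expectations (assembly of the mean of the planted word) -/

set_option autoImplicit false

open Filter Topology
open scoped BigOperators

namespace Pool.Agent.LCSU

open Pool.Agent.LCSE Pool.Agent.LCSV

noncomputable section

variable {k : ℕ}

lemma zip_sum_le {l : ℕ} {θ A B : ℝ} {f g i : List (Fin k) → List (Fin k) → ℝ}
    (h : ∀ x v : List (Fin k), x.length = l → f x v + θ * (A - B * i x v) ≤ g x v) :
    ∀ (T : ℕ) (xs vs : List (List (Fin k))), IsCells l T xs → vs.length = T →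
      (List.zipWith f xs vs).sum + θ * (T * A - B * (List.zipWith i xs vs).sum) ≤
        (List.zipWith g xs vs).sum := by
  intro T
  induction T with
  | zero =>
    intro xs vs h2 h3
    obtain rfl := List.length_eq_zero_iff.1 h2.1
    obtain rfl := List.length_eq_zero_iff.1 h3
    simp
  | succ T ih =>
    intro xs vs h2 h3
    obtain ⟨x, xs, rfl⟩ := List.exists_cons_of_length_eq_add_one h2.1
    obtain ⟨v, vs, rfl⟩ := List.exists_cons_of_length_eq_add_one h3
    rw [isCells_cons] at h2
    simp only [List.length_cons, Nat.add_right_cancel_iff] at h3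
    simp only [List.zipWith_cons_cons, List.sum_cons]
    have h4 := ih xs vs h2.2 h3
    have h5 := h x v h2.1
    push_cast
    linarith

lemma map_sum_le {A B : ℝ} {D : List (Fin k) → ℝ} {i : List (Fin k) → List (Fin k) → ℝ}
    (h : ∀ x v : List (Fin k), D v ≤ A + B * i x v) :
    ∀ (T : ℕ) (xs vs : List (List (Fin k))), xs.length = T → vs.length = T →
      (vs.map D).sum ≤ T * A + B * (List.zipWith i xs vs).sum := by
  intro T
  induction T with
  | zero =>
    intro xs vs h2 h3
    obtain rfl := List.length_eq_zero_iff.1 h2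
    obtain rfl := List.length_eq_zero_iff.1 h3
    simp
  | succ T ih =>
    intro xs vs h2 h3
    obtain ⟨x, xs, rfl⟩ := List.exists_cons_of_length_eq_add_one h2
    obtain ⟨v, vs, rfl⟩ := List.exists_cons_of_length_eq_add_one h3
    simp only [List.length_cons, Nat.add_right_cancel_iff] at h2 h3
    simp only [List.zipWith_cons_cons, List.map_cons, List.sum_cons]
    have h4 := ih xs vs h2 h3
    have h5 := h x v
    push_cast
    linarith

/-- the mean of the planted word is at least mean of the base + gains of the labelled cells +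
mean of the padding -/
lemma luck_low (hk : 0 < k) (hS : Stmt_SPLV) {l e T b : ℕ} {θ : ℝ} (h0 : 0 ≤ θ) (h1 : θ ≤ 1)
    (hT : 1 ≤ T) {g : List (Fin k) → ℝ} (hg : IsDens k l g)
    {K : List (Fin k) → List (Fin k) → ℝ} (hK0 : ∀ v c, c.length = l → 0 ≤ K v c)
    (hK1 : ∀ v, Ex k l (K v) = 1)
    {win : List (List (Fin k)) → List (Fin k) → List (List (Fin k))}
    (hwin : ∀ xs y, xs ≠ [] → OptWin xs y (win xs y)) {A B : ℝ}
    {i : List (Fin k) → List (Fin k) → ℝ}
    (hcell : ∀ x v : List (Fin k), x.length = l →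
      (L x v : ℝ) + θ * (A - B * i x v) ≤ θ * Gv l e K v + (1 - θ) * (L x v : ℝ)) :
    (Exc k l g T fun xs => Ex k b fun y => (L xs.flatten y : ℝ)) +
      θ * (T * A - B * Exc k l g T fun xs => Ex k b fun y =>
        (List.zipWith i xs (win xs y)).sum) + EB θ T (fun bs => F k (e * nu bs) (e * T)) ≤
      EB θ T fun bs => Exc k l g T fun xs => Exs k e T fun zs => Ex k b fun y =>
        Ex k (e * T) fun y₂ => Exk l K (win xs y) fun cs =>
          (L (splice bs xs cs zs) (y ++ y₂) : ℝ) := by
  have hwl : ∀ xs y, IsCells l T xs → OptWin xs y (win xs y) := by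
    intro xs y hxs
    refine hwin xs y ?_
    rintro rfl
    have := hxs.1
    simp at this
    omega
  -- step 1: SPLV
  have s1 : (EB θ T fun bs => Exc k l g T fun xs => Exs k e T fun zs => Ex k b fun y =>
        Ex k (e * T) fun y₂ => Exk l K (win xs y) fun cs =>
          cellVal l bs xs cs zs (win xs y) + (L (pad bs zs) y₂ : ℝ)) ≤
      EB θ T fun bs => Exc k l g T fun xs => Exs k e T fun zs => Ex k b fun y =>
        Ex k (e * T) fun y₂ => Exk l K (win xs y) fun cs =>
          (L (splice bs xs cs zs) (y ++ y₂) : ℝ) := by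
    refine EB_mono h0 h1 fun bs hbs => Exc_mono hg.nonneg fun xs hxs => Exs_mono fun zs hzs =>
      Ex_mono fun y _ => Ex_mono fun y₂ _ => Exk_mono hK0 fun cs hcs => ?_
    have hw := hwl xs y hxs
    have h2 := hS k l bs xs cs zs (win xs y) y₂ (by rw [hxs.1, hbs])
      (by rw [hcs.1, hw.1, hxs.1, hbs]) (by rw [hzs.1, hbs]) (by rw [hw.1, hxs.1, hbs])
    rw [hw.2.1] at h2
    exact h2
  refine le_trans ?_ s1
  -- step 2: means over contents, fresh words and the second part of `y`
  have s2 : (EB θ T fun bs => Exc k l g T fun xs => Exs k e T fun zs => Ex k b fun y =>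
        Ex k (e * T) fun y₂ => Exk l K (win xs y) fun cs =>
          cellVal l bs xs cs zs (win xs y) + (L (pad bs zs) y₂ : ℝ)) =
      EB θ T fun bs => (Exc k l g T fun xs => Ex k b fun y => cv (Gv l e K) bs xs (win xs y)) +
        F k (e * nu bs) (e * T) := by
    refine EB_congr fun bs hbs => ?_
    have h3 : (Exc k l g T fun xs => Exs k e T fun zs => Ex k b fun y =>
        Ex k (e * T) fun y₂ => Exk l K (win xs y) fun cs =>
          cellVal l bs xs cs zs (win xs y) + (L (pad bs zs) y₂ : ℝ)) =
        Exc k l g T fun xs => (Ex k b fun y => cv (Gv l e K) bs xs (win xs y)) +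
          F k (e * nu bs) (e * T) := by
      refine Exc_congr fun xs hxs => ?_
      have h4 : (Exs k e T fun zs => Ex k b fun y =>
          Ex k (e * T) fun y₂ => Exk l K (win xs y) fun cs =>
            cellVal l bs xs cs zs (win xs y) + (L (pad bs zs) y₂ : ℝ)) =
          Exs k e T fun zs => (Ex k b fun y => Exk l K (win xs y) fun cs =>
            cellVal l bs xs cs zs (win xs y)) + Ex k (e * T) fun y₂ => (L (pad bs zs) y₂ : ℝ) := by
        refine Exs_congr fun zs _ => ?_
        have h5 : ∀ y : List (Fin k), (Ex k (e * T) fun y₂ => Exk l K (win xs y) fun cs =>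
            cellVal l bs xs cs zs (win xs y) + (L (pad bs zs) y₂ : ℝ)) =
            (Exk l K (win xs y) fun cs => cellVal l bs xs cs zs (win xs y)) +
              Ex k (e * T) fun y₂ => (L (pad bs zs) y₂ : ℝ) := by
          intro y
          have h6 : ∀ y₂ : List (Fin k), (Exk l K (win xs y) fun cs =>
              cellVal l bs xs cs zs (win xs y) + (L (pad bs zs) y₂ : ℝ)) =
              (Exk l K (win xs y) fun cs => cellVal l bs xs cs zs (win xs y)) +
                (L (pad bs zs) y₂ : ℝ) := by
            intro y₂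
            rw [Exk_add, Exk_const hK1]
          simp only [h6]
          rw [Ex_add, Ex_const hk]
        simp only [h5]
        rw [Ex_add, Ex_const hk]
      rw [h4, Exs_add, ← Ex_Exs_comm, pad_mean hk e (fun w => Ex k (e * T) fun y₂ => (L w y₂ : ℝ)) T
        bs hbs]
      congr 1
      refine Ex_congr fun y _ => ?_
      have hw := hwl xs y hxs
      exact cellVal_mean hk hK1 T bs xs (win xs y) hbs hxs.1 (by rw [hw.1, hxs.1])
    rw [h3, Exc_add, Exc_const hg.one]
  rw [s2, EB_add]
  refine add_le_add ?_ le_rfl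
  -- step 3: labels
  have s3 : (EB θ T fun bs => Exc k l g T fun xs => Ex k b fun y =>
        cv (Gv l e K) bs xs (win xs y)) =
      Exc k l g T fun xs => Ex k b fun y =>
        (List.zipWith (fun x v => θ * Gv l e K v + (1 - θ) * (L x v : ℝ)) xs (win xs y)).sum := by
    rw [EB_Exc_comm]
    refine Exc_congr fun xs hxs => ?_
    rw [EB_Ex_comm]
    refine Ex_congr fun y _ => ?_
    have hw := hwl xs y hxs
    exact EB_cv θ (Gv l e K) T xs (win xs y) hxs.1 (by rw [hw.1, hxs.1])
  rw [s3]
  have s4 : (Exc k l g T fun xs => Ex k b fun y => (L xs.flatten y : ℝ) +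
      θ * (T * A - B * (List.zipWith i xs (win xs y)).sum)) ≤
      Exc k l g T fun xs => Ex k b fun y =>
        (List.zipWith (fun x v => θ * Gv l e K v + (1 - θ) * (L x v : ℝ)) xs (win xs y)).sum := by
    refine Exc_mono hg.nonneg fun xs hxs => Ex_mono fun y _ => ?_
    have hw := hwl xs y hxs
    rw [hw.2.2]
    exact zip_sum_le hcell T xs (win xs y) hxs (by rw [hw.1, hxs.1])
  refine le_trans (le_of_eq ?_) s4
  have s5 : ∀ xs y : List _, (L (List.flatten xs) y : ℝ) +
      θ * (T * A - B * (List.zipWith i xs (win xs y)).sum) =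
      (L xs.flatten y : ℝ) + (θ * (T * A) + (-(θ * B)) * (List.zipWith i xs (win xs y)).sum) :=
    fun xs y => by ring
  simp only [s5]
  simp only [Ex_add, Ex_const_mul, Ex_const hk]
  rw [Exc_add, Exc_add, Exc_const hg.one, Exc_const_mul T (-(θ * B))
    (fun xs => Ex k b fun y => (List.zipWith i xs (win xs y)).sum)]
  ring

/-- relative entropy -/
lemma ent_up (hk : 0 < k) {l T b : ℕ} {θ : ℝ} (h0 : 0 ≤ θ)
    (hT : 1 ≤ T) {g : List (Fin k) → ℝ} (hg : IsDens k l g)
    {win : List (List (Fin k)) → List (Fin k) → List (List (Fin k))}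
    (hwin : ∀ xs y, xs ≠ [] → OptWin xs y (win xs y)) {A B : ℝ} {D : List (Fin k) → ℝ}
    {i : List (Fin k) → List (Fin k) → ℝ}
    (hcell : ∀ x v : List (Fin k), D v ≤ A + B * i x v) :
    (EB θ T fun bs => Exc k l g T fun xs => Ex k b fun y => labSum bs (win xs y) D) ≤
      θ * (T * A + B * Exc k l g T fun xs => Ex k b fun y =>
        (List.zipWith i xs (win xs y)).sum) := by
  have hwl : ∀ xs y, IsCells l T xs → OptWin xs y (win xs y) := by
    intro xs y hxs
    refine hwin xs y ?_
    rintro rfl
    have := hxs.1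
    simp at this
    omega
  have s3 : (EB θ T fun bs => Exc k l g T fun xs => Ex k b fun y => labSum bs (win xs y) D) =
      Exc k l g T fun xs => Ex k b fun y => θ * ((win xs y).map D).sum := by
    rw [EB_Exc_comm]
    refine Exc_congr fun xs hxs => ?_
    rw [EB_Ex_comm]
    refine Ex_congr fun y _ => ?_
    have hw := hwl xs y hxs
    exact EB_labSum θ D T (win xs y) (by rw [hw.1, hxs.1])
  rw [s3]
  have s4 : (Exc k l g T fun xs => Ex k b fun y => θ * ((win xs y).map D).sum) ≤
      Exc k l g T fun xs => Ex k b fun y =>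
        θ * (T * A) + (θ * B) * (List.zipWith i xs (win xs y)).sum := by
    refine Exc_mono hg.nonneg fun xs hxs => Ex_mono fun y _ => ?_
    have hw := hwl xs y hxs
    have h4 := map_sum_le hcell T xs (win xs y) hxs.1 (by rw [hw.1, hxs.1])
    have h5 := mul_le_mul_of_nonneg_left h4 h0
    linarith
  refine s4.trans (le_of_eq ?_)
  simp only [Ex_add, Ex_const_mul, Ex_const hk]
  rw [Exc_add, Exc_const hg.one, Exc_const_mul T (θ * B)
    (fun xs => Ex k b fun y => (List.zipWith i xs (win xs y)).sum)]
  ring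

/-- mean of the padding -/
lemma pad_low {C : ℝ} (hP : PhiFacts k) (hC : 0 ≤ C)
    (hDEF : ∀ a b : ℕ, Phi k a b - F k a b ≤ C * √((a : ℝ) + b)) (hrho : 1 < rho k) {θ : ℝ}
    (h0 : 0 ≤ θ) (h1 : θ ≤ 1) (e T : ℕ) (hT : 1 ≤ T) :
    al k * (2 * e * T - e * (θ * T)) - C * √(2 * (e * T)) -
      2 * al k * e / ((1 - 1 / rho k) ^ 2 * T) * (θ * T + θ ^ 2 * T ^ 2) ≤
      EB θ T (fun bs => F k (e * nu bs) (e * T)) := by
  set c := 1 - 1 / rho k with hc
  have hr0 : 0 < rho k := by linarith
  have hc0 : 0 < c := by
    have : 1 / rho k < 1 := by rw [div_lt_one hr0]; exact hrho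
    rw [hc]; linarith
  have hT0 : (0 : ℝ) < T := by exact_mod_cast hT
  have hal : 0 ≤ al k := by
    have := hP.gam_pos
    unfold al; linarith
  have hpt : ∀ bs : List Bool, bs.length = T →
      (al k * (2 * e * T) - C * √(2 * (e * T))) +
        ((-(al k * e)) * (nl bs : ℝ) + (-(2 * al k * e / (c ^ 2 * T))) * (nl bs : ℝ) ^ 2) ≤
        F k (e * nu bs) (e * T) := by
    intro bs hbs
    have hn := nl_add_nu bs
    rw [hbs] at hn
    have hnu : (nu bs : ℝ) = T - nl bs := by
      have : ((nl bs : ℝ) + nu bs) = T := by exact_mod_cast hn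
      linarith
    have hnl0 : (0 : ℝ) ≤ nl bs := Nat.cast_nonneg _
    have hnu0 : (0 : ℝ) ≤ nu bs := Nat.cast_nonneg _
    have h2 := hDEF (e * nu bs) (e * T)
    push_cast at h2
    have h3 : √((e : ℝ) * nu bs + e * T) ≤ √(2 * (e * T)) := by
      refine Real.sqrt_le_sqrt ?_
      have : (e : ℝ) * nu bs ≤ e * T := mul_le_mul_of_nonneg_left (by linarith) (Nat.cast_nonneg _)
      linarith
    have h4 := mul_le_mul_of_nonneg_left h3 hC
    have h5 : al k * (2 * e * T) + ((-(al k * e)) * (nl bs : ℝ) +
        (-(2 * al k * e / (c ^ 2 * T))) * (nl bs : ℝ) ^ 2) ≤ Phi k (e * nu bs) (e * T) := by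
      have h8 : 0 ≤ 2 * al k * e / (c ^ 2 * T) := by positivity
      rcases le_or_gt (nl bs : ℝ) (c * T) with h6 | h6
      · have h7 : Phi k (e * nu bs) (e * T) = al k * (e * nu bs + e * T) := by
          have : Flat k ((e : ℝ) * nu bs) (e * T) := by
            rw [hP.flat_iff _ _ (by positivity) (by positivity)]
            have h9 : (T : ℝ) ≤ rho k * nu bs := by
              have h10 : (T : ℝ) / rho k ≤ nu bs := by
                rw [hnu]
                have : c * T = T - T / rho k := by rw [hc]; ring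
                linarith
              rw [div_le_iff₀ hr0] at h10
              linarith
            constructor
            · calc (e : ℝ) * T ≤ e * (rho k * nu bs) :=
                  mul_le_mul_of_nonneg_left h9 (Nat.cast_nonneg _)
                _ = rho k * (e * nu bs) := by ring
            · calc (e : ℝ) * nu bs ≤ e * T :=
                  mul_le_mul_of_nonneg_left (by linarith) (Nat.cast_nonneg _)
                _ ≤ rho k * (e * T) := le_mul_of_one_le_left (by positivity) hrho.le
          exact this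
        rw [h7, hnu]
        have h9 : 0 ≤ 2 * al k * e / (c ^ 2 * T) * (nl bs : ℝ) ^ 2 := by positivity
        linarith
      · have h7 := hP.nonneg (e * nu bs) (e * T)
        have h9 : 2 * al k * e * T ≤ 2 * al k * e / (c ^ 2 * T) * (nl bs : ℝ) ^ 2 := by
          have h10 : (c * T) ^ 2 ≤ (nl bs : ℝ) ^ 2 := pow_le_pow_left₀ (by positivity) h6.le 2
          calc 2 * al k * e * T = 2 * al k * e / (c ^ 2 * T) * (c * T) ^ 2 := by field_simp
            _ ≤ _ := mul_le_mul_of_nonneg_left h10 h8
        have h11 : 0 ≤ al k * e * nl bs := by positivity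
        linarith
    linarith
  have h2 := EB_mono h0 h1 hpt
  refine le_trans ?_ h2
  rw [EB_add, EB_add, EB_const, EB_const_mul, EB_const_mul, EB_nl]
  have h8 : 0 ≤ 2 * al k * e / (c ^ 2 * T) := by positivity
  have h3 := mul_le_mul_of_nonneg_left (EB_nl_sq (θ := θ) T) h8
  linarith

end

end Pool.Agent.LCSU
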