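import Pool.Agent.Work.MP_bec1e1_LU_h57.ULA
import Pool.Agent.Work.MP_bec1e1_lv_helper14.PHI1
import Pool.Agent.Work.MP_bec1e1_lv_helper13.TDet

/-! # ULUCK: one cell -/

set_option autoImplicit false

open Filter Topology
open scoped BigOperators

namespace Pool.Agent.LCSU

open Pool.Agent.LCSE Pool.Agent.LCSV

noncomputable section

variable {k : ℕ}

/-- atypical window -/
def BadW (k n R e : ℕ) (q : List (Fin k) → List (Fin k) → ℝ) (z δ x x' x'' : ℝ)
    (v : List (Fin k)) : Prop :=
  SB n (LKq n q) R v ≤ ((min R (v.length / n) : ℕ) : ℝ) * (gam k * n + δ) - R * x ∨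
  R * (z * δ + x') ≤ SB n (DSq n q) R v ∨
  (v.length ≤ (k + 1) * (R * n) ∧ (Ex k e fun u => (L u (v.drop (R * n)) : ℝ)) ≤
    F k e (v.length - R * n) - x'' * (R * n : ℕ))

/-- the mean over rows of a window of uniform letters -/
lemma drop_tail (hk : 0 < k) (e l c : ℕ) (hl : 1 ≤ l) {x'' : ℝ} (hx : 0 < x'') :
    (Ex k c fun v => ind (v.length ≤ (k + 1) * l ∧ (Ex k e fun u => (L u (v.drop l) : ℝ)) ≤
      F k e (v.length - l) - x'' * l)) ≤ Real.exp (-(2 * x'' ^ 2 / k * l)) := by
  have hl0 : (0 : ℝ) < l := by exact_mod_cast hl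
  have hk0 : (0 : ℝ) < k := by exact_mod_cast hk
  rcases Nat.eq_zero_or_pos (c - l) with h0 | h0
  · have h1 : (Ex k c fun v => ind (v.length ≤ (k + 1) * l ∧
        (Ex k e fun u => (L u (v.drop l) : ℝ)) ≤ F k e (v.length - l) - x'' * l)) =
        Ex k c fun _ => (0 : ℝ) := by
      refine Ex_congr fun v hv => ind_of_not ?_
      rintro ⟨-, h2⟩
      have h3 : v.drop l = [] := List.drop_eq_nil_of_le (by omega)
      have h4 : (Ex k e fun u => (L u (v.drop l) : ℝ)) = 0 := by
        rw [h3]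
        simp [Ex_zero_fun]
      have h5 : F k e (v.length - l) = 0 := by
        rw [hv, h0]
        unfold F
        simp [Ex_zero_fun]
      rw [h4, h5] at h2
      have : 0 < x'' * l := by positivity
      linarith
    rw [h1, Ex_zero_fun]
    exact (Real.exp_pos _).le
  · rcases le_or_gt c ((k + 1) * l) with hc | hc
    · have hlc : l ≤ c := by omega
      have h1 : (Ex k c fun v => ind (v.length ≤ (k + 1) * l ∧
          (Ex k e fun u => (L u (v.drop l) : ℝ)) ≤ F k e (v.length - l) - x'' * l)) ≤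
          Ex k c fun v => (fun w : List (Fin k) => ind ((Ex k (c - l) fun w' =>
            -(Ex k e fun u => (L u w' : ℝ))) + x'' * l ≤ -(Ex k e fun u => (L u w : ℝ)))) (v.drop l) := by
        refine Ex_mono fun v hv => ind_mono ?_
        rintro ⟨-, h2⟩
        have h3 : (Ex k (c - l) fun w' => -(Ex k e fun u => (L u w' : ℝ))) = - F k e (c - l) := by
          rw [Ex_neg]
          congr 1
          unfold F
          rw [Ex_comm]
        rw [h3]
        rw [hv] at h2
        linarith
      refine h1.trans ?_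
      rw [Ex_drop hk hlc (fun w : List (Fin k) => ind ((Ex k (c - l) fun w' =>
            -(Ex k e fun u => (L u w' : ℝ))) + x'' * l ≤ -(Ex k e fun u => (L u w : ℝ))))]
      have h2 := MGFAux.Ex_tail hk (c - l) (fun w : List (Fin k) => -(Ex k e fun u => (L u w : ℝ)))
        1 one_pos (fun l₁ l₂ a a' _ => by
          have h5 : -(Ex k e fun u => (L u (l₁ ++ a :: l₂) : ℝ)) -
              -(Ex k e fun u => (L u (l₁ ++ a' :: l₂) : ℝ)) =
              Ex k e fun u => (L u (l₁ ++ a' :: l₂) : ℝ) - L u (l₁ ++ a :: l₂) := by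
            rw [Ex_sub]; ring
          rw [h5]
          refine (Ex_abs_le _ _).trans (Ex_le_const hk fun u _ => ?_)
          rw [L_comm u, L_comm u]
          exact stmt_LIP k l₁ l₂ u a' a) (x'' * l) (by positivity)
      refine h2.trans (Real.exp_le_exp.mpr (neg_le_neg ?_))
      have hcl : ((c - l : ℕ) : ℝ) ≤ k * l := by
        have : c - l ≤ k * l := by
          have : (k + 1) * l = k * l + l := by ring
          omega
        exact_mod_cast this
      have hcl0 : (0 : ℝ) < ((c - l : ℕ) : ℝ) := by exact_mod_cast h0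
      rw [one_pow, one_mul, le_div_iff₀ hcl0]
      calc 2 * x'' ^ 2 / k * l * ((c - l : ℕ) : ℝ) ≤ 2 * x'' ^ 2 / k * l * (k * l) :=
            mul_le_mul_of_nonneg_left hcl (by positivity)
        _ = 2 * (x'' * l) ^ 2 := by field_simp
    · have h1 : (Ex k c fun v => ind (v.length ≤ (k + 1) * l ∧
          (Ex k e fun u => (L u (v.drop l) : ℝ)) ≤ F k e (v.length - l) - x'' * l)) =
          Ex k c fun _ => (0 : ℝ) := by
        refine Ex_congr fun v hv => ind_of_not ?_
        rintro ⟨h2, -⟩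
        omega
      rw [h1, Ex_zero_fun]
      exact (Real.exp_pos _).le

section kernel

variable {n : ℕ} {z δ b : ℝ} {q : List (Fin k) → List (Fin k) → ℝ}

lemma b_nonneg (hk : 0 < k) (hq : KerData k n z δ b q) : 0 ≤ b := by
  have h1 := hq.low (List.replicate n ⟨0, hk⟩) (List.replicate n ⟨0, hk⟩) (by simp) (by simp)
  have h2 := hq.up (List.replicate n ⟨0, hk⟩) (List.replicate n ⟨0, hk⟩) (by simp) (by simp)
  have h3 := Real.exp_le_exp.mp (h1.trans h2)
  linarith

/-- atypical windows are exponentially unlikely -/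
lemma badW_prob (hk : 0 < k) (hn : 1 ≤ n) (hz : 0 < z) (hδ : 0 < δ) (hq : KerData k n z δ b q)
    {x x' x'' : ℝ} (hx : 0 < x) (hx' : 0 < x') (hx'' : 0 < x'') : ∃ c : ℝ, 0 < c ∧
      ∀ R e m : ℕ, 1 ≤ R →
        (Ex k m fun v => ind (BadW k n R e q z δ x x' x'' v)) ≤ 3 * Real.exp (-(c * R)) := by
  have hk0 : (0 : ℝ) < k := by exact_mod_cast hk
  have hn0 : (0 : ℝ) < n := by exact_mod_cast hn
  have hb := b_nonneg hk hq
  set c := min (2 * x ^ 2 / (n : ℝ) ^ 2) (min (2 * x' ^ 2 / (2 * b + 1) ^ 2) (2 * x'' ^ 2 / k * n))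
    with hc
  refine ⟨c, ?_, fun R e m hR => ?_⟩
  · rw [hc]
    refine lt_min (by positivity) (lt_min (by positivity) (by positivity))
  have hR0 : (0 : ℝ) ≤ R := Nat.cast_nonneg _
  have h1 := SB_tail_le hk hn (LKq n q) hn0 (fun w hw => LKq_nonneg hq hw)
    (fun w hw => LKq_le hq hw) (LKq_mean hq) hx.le R m
  have h2 := SB_tail_ge hk hn (DSq n q) (M := 2 * b + 1) (by linarith)
    (fun w hw => DSq_nonneg hk hq hw) (fun w hw => (DSq_le hk hq hw).trans (by linarith))
    (DSq_mean hk hq) (by positivity) hx'.le R m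
  have h3 := drop_tail hk e (R * n) m (Nat.mul_pos hR hn) hx''
  have hc1 : c * R ≤ 2 * x ^ 2 / (n : ℝ) ^ 2 * R := mul_le_mul_of_nonneg_right (min_le_left _ _) hR0
  have hc2 : c * R ≤ 2 * x' ^ 2 / (2 * b + 1) ^ 2 * R :=
    mul_le_mul_of_nonneg_right ((min_le_right _ _).trans (min_le_left _ _)) hR0
  have hc3 : c * R ≤ 2 * x'' ^ 2 / k * ((R * n : ℕ) : ℝ) := by
    have := mul_le_mul_of_nonneg_right ((min_le_right (2 * x ^ 2 / (n : ℝ) ^ 2) _).trans
      (min_le_right (2 * x' ^ 2 / (2 * b + 1) ^ 2) (2 * x'' ^ 2 / k * n))) hR0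
    push_cast
    calc c * R ≤ 2 * x'' ^ 2 / k * n * R := this
      _ = _ := by ring
  have e1 := Real.exp_le_exp.mpr (neg_le_neg hc1)
  have e2 := Real.exp_le_exp.mpr (neg_le_neg hc2)
  have e3 := Real.exp_le_exp.mpr (neg_le_neg hc3)
  have h4 : (Ex k m fun v => ind (BadW k n R e q z δ x x' x'' v)) ≤
      (Ex k m fun v => ind (SB n (LKq n q) R v ≤
        ((min R (m / n) : ℕ) : ℝ) * (gam k * n + δ) - R * x)) +
      (Ex k m fun v => ind ((R : ℝ) * (z * δ + x') ≤ SB n (DSq n q) R v)) +
      (Ex k m fun v => ind (v.length ≤ (k + 1) * (R * n) ∧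
        (Ex k e fun u => (L u (v.drop (R * n)) : ℝ)) ≤
          F k e (v.length - R * n) - x'' * (R * n : ℕ))) := by
    rw [← Ex_add, ← Ex_add]
    refine Ex_mono fun v hv => ?_
    refine ind_le_add₃ fun hB => ?_
    unfold BadW at hB
    rw [hv] at hB
    rw [hv]
    exact hB
  linarith

/-- a typical cell gains -/
lemma good_cell {C : ℝ} (hk2 : 2 ≤ k) (hP : PhiFacts k) (hC : 0 ≤ C)
    (hDEF : ∀ a b : ℕ, Phi k a b - F k a b ≤ C * √((a : ℝ) + b)) (hn : 1 ≤ n) (hδ : 0 < δ)
    (hq : KerData k n z δ b q) {x x' x'' ε : ℝ} (hε : 0 < ε) (hε1 : ε ≤ 1)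
    {R e : ℕ} (hR : 1 ≤ R) (he : e = ⌊(rho k - 1) * ((R * n : ℕ) : ℝ)⌋₊)
    (hnum : R * (2 * ε * n + x + 3 * ε * n + x'' * n) + (n + 1 + C * √(2 * e)) ≤ R * (δ / 4))
    {v w : List (Fin k)} (hB : ¬ BadW k n R e q z δ x x' x'' v)
    (h1 : |(v.length : ℝ) - rho k * ((R * n : ℕ) : ℝ)| ≤ ε * ((R * n : ℕ) : ℝ))
    (h2 : (L w v : ℝ) ≤ Phi k ((R * n : ℕ) : ℝ) v.length + ε * ((R * n : ℕ) : ℝ)) :
    (L w v : ℝ) + (al k * e + 3 / 4 * (R * δ)) ≤ Gv (R * n) e (kernR n q R) v := by
  have hk : 0 < k := by omega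
  have hk0 : (0 : ℝ) < k := by exact_mod_cast hk
  have hn0 : (0 : ℝ) < n := by exact_mod_cast hn
  have hn1 : (1 : ℝ) ≤ n := by exact_mod_cast hn
  have hR0 : (1 : ℝ) ≤ R := by exact_mod_cast hR
  have hrho := hP.rho_one
  have hrk := hP.rho_lt
  unfold BadW at hB
  push Not at hB
  obtain ⟨b1, -, b3⟩ := hB
  set l : ℕ := R * n with hl
  have hlr : (l : ℝ) = R * n := by rw [hl]; push_cast; ring
  have hl0 : (0 : ℝ) < l := by rw [hlr]; positivity
  set W : ℕ := v.length with hW
  obtain ⟨h1a, h1b⟩ := abs_le.mp h1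
  have hWle : W ≤ (k + 1) * l := by
    have : (W : ℝ) ≤ (k + 1) * l := by nlinarith
    exact_mod_cast this
  have b3 := b3 hWle
  -- luck
  have hG : SB n (LKq n q) R v + (Ex k e fun u => (L u (v.drop l) : ℝ)) ≤
      Gv l e (kernR n q R) v := by
    unfold Gv
    exact add_le_add (kernR_luck hk hq R v) le_rfl
  -- the number of full blocks
  have hgle : gam k * n + δ ≤ n :=
    (LKq_mean hq).trans (Ex_le_const hk fun w hw => LKq_le hq hw)
  have hg0 : 0 ≤ gam k * n + δ := by
    have := hP.gam_pos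
    positivity
  have hm : (1 - ε) * R - 1 ≤ ((min R (W / n) : ℕ) : ℝ) := by
    rcases le_total R (W / n) with h | h
    · rw [min_eq_left h]; nlinarith
    · rw [min_eq_right h]
      have h3 : (W : ℝ) < ((W / n : ℕ) + 1) * n := by
        have := Nat.lt_div_mul_add (a := W) hn
        have h4 : W < (W / n + 1) * n := by
          rw [Nat.add_mul, one_mul]; exact this
        exact_mod_cast h4
      have h5 : (1 - ε) * R * n ≤ W := by
        have : (1 - ε) * l ≤ W := by nlinarith
        rw [hlr] at this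
        linarith
      have h6 : ((1 - ε) * R) * n < ((W / n : ℕ) + 1) * n := by linarith
      have h7 := lt_of_mul_lt_mul_right h6 hn0.le
      linarith
  have hSB : R * (gam k * n + δ) - (ε * R + 1) * n - R * x < SB n (LKq n q) R v := by
    have h3 := mul_le_mul_of_nonneg_right hm hg0
    have h4 : (ε * R + 1) * (gam k * n + δ) ≤ (ε * R + 1) * n :=
      mul_le_mul_of_nonneg_left hgle (by positivity)
    nlinarith
  -- fresh letters
  have he1 : (e : ℝ) ≤ (rho k - 1) * l := by
    rw [he]; exact Nat.floor_le (mul_nonneg (by linarith) hl0.le)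
  have he2 : (rho k - 1) * l ≤ e + 1 := by
    rw [he]; exact (Nat.lt_floor_add_one _).le
  have hFe : gam k * e - C * √(2 * e) ≤ F k e e := by
    have h3 := hDEF e e
    have h4 : Phi k e e = gam k * e := Phi_diag hk e (Nat.cast_nonneg _)
    rw [h4, ← two_mul] at h3
    linarith
  have hF : F k e e - ε * l ≤ F k e (W - l) := by
    have h3 : F k e e ≤ F k e (W - l) + ((e - (W - l) : ℕ) : ℝ) := by
      rcases le_total e (W - l) with h | h
      · rw [Nat.sub_eq_zero_of_le h, Nat.cast_zero, add_zero]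
        rw [F_comm e e, F_comm e (W - l)]
        obtain ⟨d, hd⟩ := Nat.exists_eq_add_of_le h
        rw [hd]
        exact F_add_left hk e d e
      · obtain ⟨d, hd⟩ := Nat.exists_eq_add_of_le h
        have h5 := F_lip (k := k) hk (W - l) d e
        rw [← hd, F_comm (W - l) e] at h5
        have h6 : e - (W - l) = d := by omega
        rw [h6]
        exact h5
    have h4 : ((e - (W - l) : ℕ) : ℝ) ≤ ε * l := by
      rcases le_total e (W - l) with h | h
      · rw [Nat.sub_eq_zero_of_le h, Nat.cast_zero]; positivity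
      · rw [Nat.cast_sub h]
        have h5 : (W : ℝ) - l ≤ ((W - l : ℕ) : ℝ) := by
          rw [sub_le_iff_le_add]
          have : W ≤ (W - l) + l := by omega
          exact_mod_cast this
        nlinarith
    linarith
  -- upper bound for the base cell
  have hPhi : Phi k l W ≤ al k * (2 * l + e + 1 + ε * l) := by
    refine (hP.line l W hl0.le (Nat.cast_nonneg _)).trans (mul_le_mul_of_nonneg_left ?_ ?_)
    · nlinarith
    · have := hP.gam_pos
      unfold al; linarith
  have hal : al k ≤ 1 / 2 := by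
    have := hP.gam_lt
    unfold al; linarith
  have hal0 : 0 ≤ al k := by
    have := hP.gam_pos
    unfold al; linarith
  have hgal : gam k = 2 * al k := by unfold al; ring
  have h10 : al k * (1 + ε * l) ≤ 1 + ε * l := by
    have : 0 ≤ ε * l := by positivity
    nlinarith
  have h11 : R * (gam k * n + δ) = gam k * l + R * δ := by rw [hlr]; ring
  have h12 : ε * l = ε * n * R := by rw [hlr]; ring
  have h13 : x'' * l = x'' * n * R := by rw [hlr]; ring
  rw [h11, hgal] at hSB
  rw [hgal] at hFe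
  have h14 : (ε * R + 1) * n = ε * n * R + n := by ring
  rw [h14] at hSB
  rw [h12] at hF hPhi h2 h10
  rw [h13] at b3
  have h15 : al k * (2 * l + e + 1 + ε * n * R) = 2 * al k * l + al k * e + al k * (1 + ε * n * R) := by
    ring
  rw [h15] at hPhi
  have h16 : R * (2 * ε * n + x + 3 * ε * n + x'' * n) =
      5 * (ε * n * R) + R * x + x'' * n * R := by ring
  rw [h16] at hnum
  have h17 : 0 ≤ ε * n * R := by positivity
  linarith

/-- lower bound for every cell -/
lemma Gv_nonneg (hk : 0 < k) (hq : KerData k n z δ b q) (R e : ℕ) (v : List (Fin k)) :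
    0 ≤ Gv (R * n) e (kernR n q R) v :=
  add_nonneg (Ex_nonneg fun _ hc => mul_nonneg (kernR_pos hk hq R v hc).le (Nat.cast_nonneg _))
    (Ex_nonneg fun _ _ => Nat.cast_nonneg _)

end kernel

end

end Pool.Agent.LCSU
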